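import Mathlib
import Pool.Agent.Lib_helper68.OG10
import Pool.Agent.Lib_helper68.OG11
import Pool.Agent.Lib_helper68.OG13

/-!
# CQ (MP_931ca8_lc): the positive half of the criterion
-/

set_option autoImplicit false
set_option linter.unusedSectionVars false
set_option linter.deprecated false

open Cardinal Ordinal Set

namespace Pool.Agent.CQ

open Pool.Agent.H68.OG

/-- the omission property of `δ` at `κ` -/
def Part (κ : Cardinal.{0}) (δ : Ordinal.{0}) : Prop :=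
  ∀ F : δ.ToType → Finset κ.ord.ToType, ∃ c,
    Ordinal.type (fun x y : {i : δ.ToType | c ∉ F i} => x < y) = δ

variable {κ : Cardinal.{0}}

/-- kernels -/
theorem kern (hκ : κ.IsRegular) (hκ0 : ℵ₀ < κ) {V P : Type} (f : V → Finset P) (S : Set V)
    (hS : κ ≤ #S) : ∃ S' ⊆ S, κ ≤ #S' ∧ ∃ R : Finset P, ∀ p ∉ R, #{x | x ∈ S' ∧ p ∈ f x} < κ := by
  classical
  have hn : ∃ n, κ ≤ #{x | x ∈ S ∧ (f x).card = n} := by
    by_contra hcon
    push Not at hcon
    have h1 : #(⋃ n : ℕ, {x | x ∈ S ∧ (f x).card = n}) < κ :=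
      (Cardinal.card_iUnion_lt_iff_forall_of_isRegular hκ (by rw [Cardinal.mk_nat]; exact hκ0)).2
        hcon
    have h2 : S ⊆ ⋃ n : ℕ, {x | x ∈ S ∧ (f x).card = n} := fun x hx =>
      Set.mem_iUnion.2 ⟨_, hx, rfl⟩
    exact absurd (hS.trans (Cardinal.mk_le_mk_of_subset h2)) (not_le.2 h1)
  obtain ⟨n, hn⟩ := hn
  have hex : ∃ k, ∃ R : Finset P, n = R.card + k ∧
      κ ≤ #{x | x ∈ S ∧ (f x).card = n ∧ R ⊆ f x} := by
    refine ⟨n, ∅, by simp, hn.trans (Cardinal.mk_le_mk_of_subset ?_)⟩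
    rintro x ⟨hx1, hx2⟩
    exact ⟨hx1, hx2, Finset.empty_subset _⟩
  obtain ⟨R, hR1, hR2⟩ := Nat.find_spec hex
  refine ⟨_, fun x hx => hx.1, hR2, R, ?_⟩
  intro p hp
  by_contra hcon
  rw [not_lt] at hcon
  have hne : Nonempty {x | x ∈ {x | x ∈ S ∧ (f x).card = n ∧ R ⊆ f x} ∧ p ∈ f x} := by
    rw [← Cardinal.mk_ne_zero_iff]
    exact (hκ.pos.trans_le hcon).ne'
  obtain ⟨x, ⟨-, hx2, hx3⟩, hx4⟩ := hne
  have hcard : (insert p R).card = R.card + 1 := Finset.card_insert_of_notMem hp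
  have hle : (insert p R).card ≤ n := by
    rw [← hx2]
    exact Finset.card_le_card (Finset.insert_subset hx4 hx3)
  refine Nat.find_min hex (m := Nat.find hex - 1) (by omega) ⟨insert p R, by omega, ?_⟩
  refine hcon.trans (Cardinal.mk_le_mk_of_subset ?_)
  rintro w ⟨⟨hw1, hw2, hw3⟩, hw4⟩
  exact ⟨hw1, hw2, Finset.insert_subset hw4 hw3⟩

/-- colourings with large classes -/
theorem colour (hκ : ℵ₀ ≤ κ) {V : Type} (S : Set V) (hS : κ ≤ #S) :
    ∃ k : V → κ.ord.ToType, ∀ c, κ ≤ #{x | x ∈ S ∧ k x = c} := by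
  classical
  have hW : #κ.ord.ToType = κ := by rw [Cardinal.mk_toType, Cardinal.card_ord]
  have hN : Nonempty κ.ord.ToType := by
    rw [← Cardinal.mk_ne_zero_iff, hW]
    exact (aleph0_pos.trans_le hκ).ne'
  have h1 : #(κ.ord.ToType × κ.ord.ToType) ≤ #S := by
    rw [Cardinal.mk_prod, Cardinal.lift_id, hW, Cardinal.mul_eq_self hκ]
    exact hS
  obtain ⟨i⟩ := (Cardinal.le_def _ _).1 h1
  have hi : Function.Injective fun p => (i p : V) := Subtype.val_injective.comp i.injective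
  refine ⟨fun x => (Function.invFun (fun p => (i p : V)) x).1, fun c => ?_⟩
  calc κ = #κ.ord.ToType := hW.symm
    _ ≤ _ := by
      refine Cardinal.mk_le_of_injective (f := fun w : κ.ord.ToType =>
        (⟨(i (c, w) : V), (i (c, w)).2, ?_⟩ : {x | x ∈ S ∧
          (Function.invFun (fun p => (i p : V)) x).1 = c})) ?_
      · have := Function.leftInverse_invFun hi (c, w)
        rw [this]
      · intro a b hab
        have h3 := congrArg Subtype.val hab
        have h4 := hi h3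
        exact (Prod.mk.inj h4).2

/-- free sets meeting all the sets `T p` in large sets -/
theorem free_rec (hκ : κ.IsRegular) {V P : Type} (f : V → Finset V)
    (hP : #P ≤ κ) (T : P → Set V) (hT : ∀ p, κ ≤ #(T p))
    (hf : ∀ p q, ∀ u ∈ T q, #{x | x ∈ T p ∧ u ∈ f x} < κ) :
    ∃ X : Set V, (∀ x ∈ X, ∀ y ∈ X, x ≠ y → y ∉ f x) ∧ ∀ p, κ ≤ #(X ∩ T p : Set V) := by
  classical
  rcases isEmpty_or_nonempty P with hE | hN
  · exact ⟨∅, fun x hx => absurd hx (Set.notMem_empty x), fun p => (hE.false p).elim⟩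
  have hW : #κ.ord.ToType = κ := by rw [Cardinal.mk_toType, Cardinal.card_ord]
  obtain ⟨e, he⟩ := exists_schedule hκ.1 P hP hN
  have hVn : Nonempty V := by
    have h1 := (hκ.pos.trans_le (hT hN.some)).ne'
    rw [Cardinal.mk_ne_zero_iff] at h1
    exact ⟨h1.some.1⟩
  obtain ⟨N, hNr⟩ := exists_rec' (W := κ.ord.ToType) (Y := V)
    (fun c g y => (∀ d < c, g d ∈ ⋃ q, T q) →
      (y ∈ T (e c) ∧ ∀ d < c, y ≠ g d ∧ y ∉ f (g d) ∧ g d ∉ f y)) (by
    intro c g
    by_cases hg : ∀ d < c, g d ∈ ⋃ q, T q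
    · have hIio : #(Set.Iio c) < κ := Cardinal.mk_Iio_toType_ord_lt c
      have hbad : #(⋃ d : Set.Iio c, (({g d.1} ∪ (f (g d.1) : Set V)) ∪
          {x | x ∈ T (e c) ∧ g d.1 ∈ f x}) : Set V) < κ := by
        refine (Cardinal.card_iUnion_lt_iff_forall_of_isRegular hκ hIio).2 ?_
        rintro ⟨d, hd⟩
        refine lt_of_le_of_lt (Cardinal.mk_union_le _ _) (Cardinal.add_lt_of_lt hκ.1 ?_ ?_)
        · refine lt_of_lt_of_le ?_ hκ.1
          exact Cardinal.lt_aleph0_iff_set_finite.2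
            ((Set.finite_singleton _).union (Finset.finite_toSet _))
        · obtain ⟨q, hq⟩ := Set.mem_iUnion.1 (hg d hd)
          exact hf (e c) q (g d) hq
      have hex : ∃ y ∈ T (e c), y ∉ (⋃ d : Set.Iio c, (({g d.1} ∪ (f (g d.1) : Set V)) ∪
          {x | x ∈ T (e c) ∧ g d.1 ∈ f x}) : Set V) := by
        by_contra hcon
        push Not at hcon
        exact absurd ((hT (e c)).trans (Cardinal.mk_le_mk_of_subset hcon)) (not_le.2 hbad)
      obtain ⟨y, hy1, hy2⟩ := hex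
      refine ⟨y, fun _ => ⟨hy1, fun d hd => ?_⟩⟩
      simp only [Set.mem_iUnion, not_exists] at hy2
      have h3 := hy2 ⟨d, hd⟩
      refine ⟨fun h => h3 (Or.inl (Or.inl h)), fun h => h3 (Or.inl (Or.inr ?_)),
        fun h => h3 (Or.inr ⟨hy1, h⟩)⟩
      exact_mod_cast h
    · exact ⟨hVn.some, fun h => absurd h hg⟩) (by
    intro c g g' y hgg h hg'
    obtain ⟨h1, h2⟩ := h (fun d hd => by rw [hgg d hd]; exact hg' d hd)
    exact ⟨h1, fun d hd => by rw [← hgg d hd]; exact h2 d hd⟩)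
  have hN1 : ∀ c, N c ∈ T (e c) := by
    intro c
    induction c using WellFoundedLT.induction with
    | ind c IH => exact (hNr c fun d hd => Set.mem_iUnion.2 ⟨_, IH d hd⟩).1
  have hN2 : ∀ c, ∀ d < c, N c ≠ N d ∧ N c ∉ f (N d) ∧ N d ∉ f (N c) := fun c =>
    (hNr c fun d _ => Set.mem_iUnion.2 ⟨_, hN1 d⟩).2
  have hinj : Function.Injective N := by
    intro a b hab
    rcases lt_trichotomy a b with h | h | h
    · exact absurd hab.symm (hN2 b a h).1
    · exact h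
    · exact absurd hab (hN2 a b h).1
  refine ⟨Set.range N, ?_, ?_⟩
  · rintro _ ⟨a, rfl⟩ _ ⟨b, rfl⟩ hne
    rcases lt_trichotomy a b with h | h | h
    · exact (hN2 b a h).2.1
    · exact absurd (congrArg N h) hne
    · exact (hN2 a b h).2.2
  · intro p
    refine (he p).trans ?_
    refine Cardinal.mk_le_of_injective (f := fun c : {c : κ.ord.ToType | e c = p} =>
      (⟨N c.1, ⟨c.1, rfl⟩, ?_⟩ : (Set.range N ∩ T p : Set V))) ?_
    · have h1 := hN1 c.1
      have h2 : e c.1 = p := c.2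
      rwa [h2] at h1
    · intro a b hab
      exact Subtype.ext (hinj (congrArg Subtype.val hab))

variable {V : Type} [LinearOrder V] [WellFoundedLT V] [Nonempty V]

theorem tg_of_card {S : Set V} (hS : κ ≤ #S) : TG S κ.ord := by
  rw [tg_iff, Cardinal.ord_le]
  unfold typ
  rw [Ordinal.card_type]
  exact hS

theorem card_of_tg {S : Set V} (hS : TG S κ.ord) : κ ≤ #S := by
  rw [tg_iff, Cardinal.ord_le] at hS
  unfold typ at hS
  rw [Ordinal.card_type] at hS
  exact hS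

/-- the pieces of a set of type at least `b * δ` -/
theorem pieces' {A : Set V} {b δ : Ordinal.{0}} (h : TG A (b * δ)) :
    ∃ B : δ.ToType → Set V, (∀ i, B i ⊆ A) ∧ (∀ i, TG (B i) b) ∧
      ∀ i j, i < j → ∀ x ∈ B i, ∀ y ∈ B j, x < y := by
  obtain ⟨g, hg, hm⟩ := h
  let e := (Ordinal.ToType.mk (o := δ)).symm
  have hlt : ∀ (i : δ.ToType) (x : Ordinal.{0}), x < b → b * (e i).1 + x < b * δ := by
    intro i x hx
    calc b * (e i).1 + x < b * (e i).1 + b := (add_lt_add_iff_left _).2 hx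
      _ = b * Order.succ (e i).1 := (Ordinal.mul_succ _ _).symm
      _ ≤ b * δ := mul_le_mul_right (Order.succ_le_of_lt (e i).2) b
  refine ⟨fun i => {v | ∃ x < b, v = g (b * (e i).1 + x)}, ?_, ?_, ?_⟩
  · rintro i _ ⟨x, hx, rfl⟩
    exact hg _ (hlt i x hx)
  · intro i
    exact ⟨fun x => g (b * (e i).1 + x), fun x hx => ⟨x, hx, rfl⟩, fun x y hxy hy =>
      hm _ _ ((add_lt_add_iff_left _).2 hxy) (hlt i y hy)⟩
  · rintro i j hij _ ⟨x, hx, rfl⟩ _ ⟨y, hy, rfl⟩
    refine hm _ _ ?_ (hlt j y hy)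
    calc b * (e i).1 + x < b * (e i).1 + b := (add_lt_add_iff_left _).2 hx
      _ = b * Order.succ (e i).1 := (Ordinal.mul_succ _ _).symm
      _ ≤ b * (e j).1 := by
        have h0 : (e i).1 < (e j).1 := e.lt_iff_lt.2 hij
        exact mul_le_mul_right (Order.succ_le_of_lt h0) b
      _ ≤ b * (e j).1 + y := le_self_add

/-- free sets of type `κ * δ` -/
theorem free_of_part (hκ : κ.IsRegular) (hκ0 : ℵ₀ < κ) {δ : Ordinal.{0}} (hδ : δ.card ≤ κ)
    (hP : Part κ δ) (f : V → Finset V) {A : Set V} (hA : TG A (κ.ord * δ)) :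
    ∃ X : Set V, X ⊆ A ∧ (∀ x ∈ X, ∀ y ∈ X, x ≠ y → y ∉ f x) ∧ TG X (κ.ord * δ) := by
  classical
  rcases eq_or_ne δ 0 with rfl | hδ0
  · refine ⟨∅, Set.empty_subset A, fun x hx => absurd hx (Set.notMem_empty x), ?_⟩
    rw [mul_zero]
    exact tg_zero ∅
  obtain ⟨B, hB1, hB2, hB3⟩ := pieces' hA
  have hker : ∀ i, ∃ S ⊆ B i, κ ≤ #S ∧ ∃ R : Finset V, ∀ p ∉ R, #{x | x ∈ S ∧ p ∈ f x} < κ :=
    fun i => kern hκ hκ0 f (B i) (card_of_tg (hB2 i))
  choose S hS1 hS2 R hR using hker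
  choose k hk using fun i => colour hκ.1 (S i) (hS2 i)
  -- the blocks are disjoint
  have huniq : ∀ x i j, x ∈ B i → x ∈ B j → i = j := by
    intro x i j hi hj
    rcases lt_trichotomy i j with h | h | h
    · exact absurd (hB3 i j h x hi x hj) (lt_irrefl _)
    · exact h
    · exact absurd (hB3 j i h x hj x hi) (lt_irrefl _)
  have hN : Nonempty κ.ord.ToType := by
    rw [← Cardinal.mk_ne_zero_iff, Cardinal.mk_toType, Cardinal.card_ord]
    exact hκ.pos.ne'
  -- the colour of a vertex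
  let kk : V → κ.ord.ToType := fun x => if h : ∃ i, x ∈ B i then k h.choose x else hN.some
  have hkk : ∀ x i, x ∈ B i → kk x = k i x := by
    intro x i hx
    have hex : ∃ i, x ∈ B i := ⟨i, hx⟩
    have h1 : kk x = k hex.choose x := dif_pos hex
    rw [h1, huniq x _ _ hex.choose_spec hx]
  obtain ⟨c, hc⟩ := hP fun i => (R i).image kk
  obtain ⟨X, hX1, hX2⟩ := free_rec hκ f (P := {i : δ.ToType | c ∉ (R i).image kk}) (by
      refine (Cardinal.mk_subtype_le _).trans ?_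
      rw [Cardinal.mk_toType]
      exact hδ) (fun i => {x | x ∈ S i.1 ∧ k i.1 x = c}) (fun i => hk i.1 c) (by
      rintro ⟨i, hi⟩ ⟨j, hj⟩ u ⟨hu1, hu2⟩
      refine lt_of_le_of_lt (Cardinal.mk_le_mk_of_subset ?_) (hR i u ?_)
      · rintro x ⟨⟨hx1, -⟩, hx2⟩
        exact ⟨hx1, hx2⟩
      · intro huR
        refine hi (Finset.mem_image.2 ⟨u, huR, ?_⟩)
        rw [hkk u j (hS1 j hu1)]
        exact hu2)
  refine ⟨X ∩ A, Set.inter_subset_right, fun x hx y hy => hX1 x hx.1 y hy.1, ?_⟩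
  refine tg_of_blocks' hB3 {i : δ.ToType | c ∉ (R i).image kk} ?_ ?_
  · have : Nonempty δ.ToType := Ordinal.nonempty_toType_iff.2 hδ0
    exact tg_of_le_typ (le_of_eq hc.symm)
  · intro i hi
    refine (tg_of_card (hX2 ⟨i, hi⟩)).mono ?_
    rintro x ⟨hx1, hx2, -⟩
    exact ⟨⟨hx1, hB1 i (hS1 i hx2)⟩, hS1 i hx2⟩

end Pool.Agent.CQ
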