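import Mathlib
import Pool.Agent.Lib_helper80.CQ.Pos

/-!
# CQ (MP_931ca8_lc): infinite reverse-free sequences
-/

set_option autoImplicit false
set_option linter.unusedSectionVars false
set_option linter.deprecated false

open Cardinal Ordinal Set

namespace Pool.Agent.CQ

/-- the block `x m, …, x (m + k - 1)` -/
def blk {Λ : Type} (x : ℕ → Λ) (m k : ℕ) : List Λ := (List.range k).map fun i => x (m + i)

theorem blk_zero {Λ : Type} (x : ℕ → Λ) (m : ℕ) : blk x m 0 = [] := rfl

theorem blk_succ {Λ : Type} (x : ℕ → Λ) (m k : ℕ) : blk x m (k + 1) = x m :: blk x (m + 1) k := by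
  unfold blk
  rw [List.range_succ_eq_map, List.map_cons, List.map_map, Nat.add_zero]
  congr 1
  refine List.map_congr_left fun i _ => ?_
  show x (m + (i + 1)) = x (m + 1 + i)
  congr 1
  omega

theorem blk_succ' {Λ : Type} (x : ℕ → Λ) (m k : ℕ) : blk x m (k + 1) = blk x m k ++ [x (m + k)] := by
  unfold blk
  rw [List.range_succ, List.map_append]
  rfl

/-- every assignment of finite sets to the finite sequences has an infinite reverse-free
sequence -/
def RF (Λ : Type) : Prop :=
  ∀ E : List Λ → Finset Λ, ∃ x : ℕ → Λ, ∀ m k, x m ∉ E (blk x (m + 1) k)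

theorem RF.mono {M K : Type} (i : M → K) (hi : Function.Injective i) (h : RF M) : RF K := by
  classical
  intro E
  obtain ⟨x, hx⟩ := h fun L => (E (L.map i)).preimage i hi.injOn
  refine ⟨i ∘ x, fun m k hmem => hx m k ?_⟩
  rw [Finset.mem_preimage]
  have : (blk x (m + 1) k).map i = blk (i ∘ x) (m + 1) k := by
    unfold blk
    rw [List.map_map]
    rfl
  rw [this]
  exact hmem

theorem not_rf_nat : ¬ RF ℕ := by
  intro h
  obtain ⟨x, hx⟩ := h fun L => (L.head?.elim ∅ fun n => Finset.range (n + 1))
  have h1 : ∀ m, x (m + 1) < x m := by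
    intro m
    have := hx m 1
    rw [blk_succ] at this
    simp only [List.head?_cons, Option.elim_some, Finset.mem_range, not_lt] at this
    omega
  have h2 : ∀ n, x n + n ≤ x 0 := by
    intro n
    induction n with
    | zero => exact le_rfl
    | succ n ih => have := h1 n; omega
  have := h2 (x 0 + 1)
  omega

/-- sublists of blocks -/
theorem blk_sublist {Λ : Type} (x : ℕ → Λ) (n : ℕ → ℕ) (hn : StrictMono n) (m k : ℕ) :
    (blk (fun i => x (n i)) m k).Sublist (blk x (n m) (n (m + k) - n m)) := by
  induction k with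
  | zero => exact List.nil_sublist _
  | succ k ih =>
    rw [blk_succ']
    have h1 : n m ≤ n (m + k) := hn.monotone (Nat.le_add_right m k)
    have h2 : n (m + k) < n (m + (k + 1)) := hn (by omega)
    have h3 : ∀ l a : ℕ, a ≤ l → ∃ t, blk x (n m) l = blk x (n m) a ++ t := by
      intro l a hal
      induction l, hal using Nat.le_induction with
      | base => exact ⟨[], (List.append_nil _).symm⟩
      | succ l hl ih' =>
        obtain ⟨t, ht⟩ := ih'
        exact ⟨t ++ [x (n m + l)], by rw [blk_succ', ht, List.append_assoc]⟩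
    obtain ⟨t, ht⟩ := h3 (n (m + (k + 1)) - n m) (n (m + k) - n m + 1) (by omega)
    rw [ht, blk_succ', show n m + (n (m + k) - n m) = n (m + k) by omega]
    exact (List.Sublist.append ih (List.Sublist.refl _)).trans (List.sublist_append_left _ _)

/-- the step to the successor cardinal -/
theorem RF.pred {μ : Cardinal.{0}} (hμ : ℵ₀ ≤ μ)
    (h : RF (Order.succ μ).ord.ToType) : RF μ.ord.ToType := by
  classical
  intro E
  have hW : ∀ w : (Order.succ μ).ord.ToType, ∃ f : (Order.succ μ).ord.ToType → μ.ord.ToType,
      Set.InjOn f (Set.Iio w) := by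
    intro w
    have h1 : #(Set.Iio w) < Order.succ μ := Cardinal.mk_Iio_toType_ord_lt w
    have h2 : #(Set.Iio w) ≤ #μ.ord.ToType := by
      rw [Cardinal.mk_toType, Cardinal.card_ord]
      exact Order.lt_succ_iff.1 h1
    obtain ⟨i⟩ := (Cardinal.le_def _ _).1 h2
    have hM : Nonempty μ.ord.ToType := by
      rw [← Cardinal.mk_ne_zero_iff, Cardinal.mk_toType, Cardinal.card_ord]
      exact (aleph0_pos.trans_le hμ).ne'
    refine ⟨fun v => if hv : v < w then i ⟨v, hv⟩ else hM.some, ?_⟩
    intro a ha b hb hab
    have ha' : a < w := ha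
    have hb' : b < w := hb
    simp only [ha', hb', dif_pos] at hab
    exact congrArg Subtype.val (i.injective hab)
  choose f hf using hW
  -- the list of codes
  let cod : List (Order.succ μ).ord.ToType → List μ.ord.ToType := fun L =>
    List.zipWith (fun a b => f b a) L L.tail
  let W0 : Nonempty (Order.succ μ).ord.ToType := by
    rw [← Cardinal.mk_ne_zero_iff, Cardinal.mk_toType, Cardinal.card_ord]
    exact (aleph0_pos.trans_le (hμ.trans (Order.le_succ μ))).ne'
  let E2 : List (Order.succ μ).ord.ToType → Finset (Order.succ μ).ord.ToType := fun L =>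
    L.head?.elim ∅ fun w => insert w ((E (cod L)).image (Function.invFunOn (f w) (Set.Iio w)))
  obtain ⟨x, hx⟩ := h fun L => L.sublists.toFinset.biUnion E2
  have hE2 : ∀ n : ℕ → ℕ, StrictMono n → ∀ m k, x (n m) ∉ E2 (blk (fun i => x (n i)) (m + 1) k) := by
    intro n hn m k hmem
    have h1 : n m < n (m + 1) := hn (Nat.lt_succ_self m)
    have h2 := blk_sublist x n hn (m + 1) k
    have h3 : ∃ l, (blk (fun i => x (n i)) (m + 1) k).Sublist (blk x (n m + 1) l) := by
      refine ⟨(n (m + 1) - (n m + 1)) + (n (m + 1 + k) - n (m + 1)), ?_⟩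
      refine h2.trans ?_
      have h4 : ∀ a b c : ℕ, blk x a (b + c) = blk x a b ++ blk x (a + b) c := by
        intro a b c
        induction c with
        | zero => rw [blk_zero, List.append_nil]; rfl
        | succ c ih =>
          rw [← Nat.add_assoc, blk_succ', ih, blk_succ', List.append_assoc, Nat.add_assoc]
      rw [h4, show n m + 1 + (n (m + 1) - (n m + 1)) = n (m + 1) by omega]
      exact List.sublist_append_right _ _
    obtain ⟨l, hl⟩ := h3
    refine hx (n m) l ?_
    rw [Finset.mem_biUnion]
    exact ⟨_, by rw [List.mem_toFinset, List.mem_sublists]; exact hl, hmem⟩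
  -- an increasing subsequence
  have hinj : ∀ m n, m < n → x m ≠ x n := by
    intro m n hmn heq
    refine hE2 (fun i => if i = 0 then m else n + (i - 1)) ?_ 0 1 ?_
    · refine strictMono_nat_of_lt_succ fun i => ?_
      rcases Nat.eq_zero_or_pos i with h0 | h0
      · subst h0
        simpa using hmn
      · have h1 : i ≠ 0 := h0.ne'
        simp only [h1, if_false, Nat.succ_ne_zero]
        omega
    · rw [blk_succ]
      simp only [E2, List.head?_cons, Option.elim_some]
      rw [Finset.mem_insert]
      left
      simpa using heq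
  obtain ⟨n, hn⟩ := exists_increasing_or_nonincreasing_subseq (· < ·) x
  have hmono : ∀ a b, a < b → x (n a) < x (n b) := by
    rcases hn with hn | hn
    · exact hn
    · exfalso
      have hdec : ∀ a b, a < b → x (n b) < x (n a) := fun a b hab =>
        lt_of_le_of_ne (not_lt.1 (hn a b hab)) fun h => hinj _ _ (n.strictMono hab) h.symm
      exact (RelEmbedding.not_wellFounded (RelEmbedding.natGT (r := (· < ·)) (fun a => x (n a))
        fun a => hdec a (a + 1) (Nat.lt_succ_self a))) wellFounded_lt
  refine ⟨fun m => f (x (n (m + 1))) (x (n m)), fun m k hmem => ?_⟩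
  refine hE2 n n.strictMono m (k + 1) ?_
  rw [blk_succ]
  simp only [E2, List.head?_cons, Option.elim_some]
  rw [Finset.mem_insert]
  right
  refine Finset.mem_image.2 ⟨f (x (n (m + 1))) (x (n m)), ?_, ?_⟩
  · have h5 : ∀ (k m : ℕ), cod (x (n (m + 1)) :: blk (fun i => x (n i)) (m + 1 + 1) k) =
        blk (fun m => f (x (n (m + 1))) (x (n m))) (m + 1) k := by
      intro k
      induction k with
      | zero => intro m; rfl
      | succ k ih =>
        intro m
        have := ih (m + 1)
        rw [blk_succ, blk_succ, ← this]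
        rfl
    rw [h5]
    exact hmem
  · exact (hf (x (n (m + 1)))).leftInvOn_invFunOn (hmono m (m + 1) (Nat.lt_succ_self m))

end Pool.Agent.CQ
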