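import Mathlib
import Pool.Agent.Lib_helper80.CQ.RF

/-!
# CQ (MP_931ca8_lc): the Erdős partition property gives reverse-free sequences
-/

set_option autoImplicit false
set_option linter.unusedSectionVars false
set_option linter.deprecated false

open Cardinal Ordinal Set

namespace Pool.Agent.CQ

/-- the partition relation `Λ → (ω) ^ {< ω}` with countably many colours -/
def ErdosRel (Λ : Type) : Prop :=
  ∀ c : Finset Λ → ℕ, ∃ H : Set Λ, H.Infinite ∧
    ∀ s t : Finset Λ, (∀ a ∈ s, a ∈ H) → (∀ a ∈ t, a ∈ H) → s.card = t.card → c s = c t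

theorem blk_sorted {Λ : Type} [LinearOrder Λ] (x : ℕ → Λ) (hx : StrictMono x) (m k : ℕ) :
    (blk x m k).Pairwise (· < ·) := by
  unfold blk
  rw [List.pairwise_map]
  exact (List.pairwise_lt_range (n := k)).imp fun {a b} hab => hx (Nat.add_lt_add_left hab m)

theorem rf_of_erdos {Λ : Type} [LinearOrder Λ] [WellFoundedLT Λ] (h : ErdosRel Λ) : RF Λ := by
  classical
  intro E
  obtain ⟨H, hH, hc⟩ := h fun s =>
    2 * (E (s.sort (· ≤ ·))).card + if (∃ a L, s.sort (· ≤ ·) = a :: L ∧ a ∈ E L) then 1 else 0
  -- an increasing sequence in `H`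
  let u := hH.natEmbedding
  obtain ⟨n, hn⟩ := exists_increasing_or_nonincreasing_subseq (· < ·) fun i => (u i : Λ)
  have hmono : ∀ a b, a < b → (u (n a) : Λ) < u (n b) := by
    rcases hn with hn | hn
    · exact hn
    · exfalso
      have hdec : ∀ a b, a < b → (u (n b) : Λ) < u (n a) := fun a b hab =>
        lt_of_le_of_ne (not_lt.1 (hn a b hab)) fun h => by
          have h1 := n.injective (u.injective (Subtype.ext h))
          exact absurd h1 hab.ne'
      exact (RelEmbedding.not_wellFounded (RelEmbedding.natGT (r := (· < ·))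
        (fun a => (u (n a) : Λ)) fun a => hdec a (a + 1) (Nat.lt_succ_self a))) wellFounded_lt
  set x : ℕ → Λ := fun a => (u (n a) : Λ) with hxdef
  have hx : StrictMono x := fun a b hab => hmono a b hab
  have hxH : ∀ a, x a ∈ H := fun a => (u (n a)).2
  refine ⟨x, fun m k hmem => ?_⟩
  -- lists of elements of `x`
  have hsort : ∀ L : List Λ, L.Pairwise (· < ·) → L.toFinset.sort (· ≤ ·) = L := by
    intro L hL
    exact (List.toFinset_sort (· ≤ ·) (hL.imp fun {a b} hab => hab.ne)).2
      (hL.imp fun {a b} hab => hab.le)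
  have hcard : ∀ L : List Λ, L.Pairwise (· < ·) → L.toFinset.card = L.length := fun L hL =>
    List.toFinset_card_of_nodup (hL.imp fun {a b} hab => hab.ne)
  have hblkH : ∀ m k, ∀ a ∈ (blk x m k).toFinset, a ∈ H := by
    intro m k a ha
    rw [List.mem_toFinset] at ha
    unfold blk at ha
    obtain ⟨i, -, rfl⟩ := List.mem_map.1 ha
    exact hxH _
  have hlen : ∀ m k, (blk x m k).length = k := by
    intro m k
    unfold blk
    rw [List.length_map, List.length_range]
  -- the first list has colour bit one
  set N := (E (blk x (m + 1) k)).card with hN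
  have key : ∀ i ≤ N + m, x i ∈ E (blk x (N + m + 1) k) := by
    intro i hi
    have hp1 : (x m :: blk x (m + 1) k).Pairwise (· < ·) := by
      rw [← blk_succ]
      exact blk_sorted x hx _ _
    have hp2 : (x i :: blk x (N + m + 1) k).Pairwise (· < ·) := by
      refine List.Pairwise.cons ?_ (blk_sorted x hx _ _)
      intro a ha
      unfold blk at ha
      obtain ⟨j, -, rfl⟩ := List.mem_map.1 ha
      exact hx (by omega)
    have h1 := hc (x m :: blk x (m + 1) k).toFinset (x i :: blk x (N + m + 1) k).toFinset ?_ ?_ ?_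
    · rw [hsort _ hp1, hsort _ hp2] at h1
      have h2 : ∃ a L, x m :: blk x (m + 1) k = a :: L ∧ a ∈ E L := ⟨_, _, rfl, hmem⟩
      rw [if_pos h2] at h1
      by_cases h3 : ∃ a L, x i :: blk x (N + m + 1) k = a :: L ∧ a ∈ E L
      · obtain ⟨a, L, h4, h5⟩ := h3
        injection h4 with h6 h7
        rw [← h6, ← h7] at h5
        exact h5
      · rw [if_neg h3] at h1
        omega
    · intro a ha
      rw [← blk_succ] at ha
      exact hblkH _ _ a ha
    · intro a ha
      rw [List.mem_toFinset, List.mem_cons] at ha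
      rcases ha with rfl | ha
      · exact hxH _
      · exact hblkH (N + m + 1) k a (by rw [List.mem_toFinset]; exact ha)
    · rw [hcard _ hp1, hcard _ hp2, List.length_cons, List.length_cons, hlen, hlen]
  have hNN : (E (blk x (N + m + 1) k)).card = N := by
    have h1 := hc (blk x (m + 1) k).toFinset (blk x (N + m + 1) k).toFinset (hblkH _ _)
      (hblkH _ _) (by
        rw [hcard _ (blk_sorted x hx _ _), hcard _ (blk_sorted x hx _ _), hlen, hlen])
    rw [hsort _ (blk_sorted x hx _ _), hsort _ (blk_sorted x hx _ _)] at h1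
    have h2 : ∀ p q : ℕ, ∀ (P Q : Prop) [Decidable P] [Decidable Q],
        2 * p + (if P then 1 else 0) = 2 * q + (if Q then 1 else 0) → p = q := by
      intro p q P Q _ _ h
      split_ifs at h <;> omega
    exact (h2 _ _ _ _ h1).symm
  have hsub : (Finset.range (N + 1)).image x ⊆ E (blk x (N + m + 1) k) := by
    intro a ha
    obtain ⟨i, hi, rfl⟩ := Finset.mem_image.1 ha
    rw [Finset.mem_range] at hi
    exact key i (by omega)
  have := Finset.card_le_card hsub
  rw [Finset.card_image_of_injective _ hx.injective, Finset.card_range, hNN] at this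
  omega

end Pool.Agent.CQ
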