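import Mathlib
import Pool.Agent.Lib_helper80.CQ.RF

/-!
# CQ (MP_931ca8_lc): Jónsson cardinals have reverse-free sequences
-/

set_option autoImplicit false
set_option linter.unusedSectionVars false
set_option linter.deprecated false

open Cardinal Ordinal Set

namespace Pool.Agent.CQ

/-- every algebra with countably many finitary operations on `Λ` has a proper subalgebra of the
same cardinality -/
def JonssonRel (Λ : Type) : Prop :=
  ∀ f : ℕ → List Λ → Λ, ∃ H : Set Λ, H ≠ Set.univ ∧ #H = #Λ ∧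
    ∀ n L, (∀ a ∈ L, a ∈ H) → f n L ∈ H

theorem rf_of_jonsson {Λ : Type} (hn : Nonempty Λ) (h : JonssonRel Λ) : RF Λ := by
  classical
  intro E
  obtain ⟨d⟩ := hn
  let Good : Set Λ → Prop := fun H => #H = #Λ ∧ ∀ L, (∀ a ∈ L, a ∈ H) → ∀ b ∈ E L, b ∈ H
  have step : ∀ H : {H : Set Λ // Good H}, ∃ H' : {H : Set Λ // Good H}, H'.1 ⊆ H.1 ∧
      ∃ x ∈ H.1, x ∉ H'.1 := by
    rintro ⟨H, hH1, hH2⟩
    obtain ⟨π⟩ : Nonempty (Λ ≃ H) := Cardinal.eq.1 hH1.symm
    let L' : List Λ → List Λ := fun L => L.map fun a => (π a : Λ)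
    have hmem : ∀ L, ∀ b ∈ E (L' L), b ∈ H := by
      intro L
      refine hH2 (L' L) ?_
      intro a ha
      obtain ⟨c, -, rfl⟩ := List.mem_map.1 ha
      exact (π c).2
    let f : ℕ → List Λ → Λ := fun n L =>
      if hb : (E (L' L)).toList.getD n (π d) ∈ H then π.symm ⟨_, hb⟩ else d
    obtain ⟨K, hK1, hK2, hK3⟩ := h f
    have hKcl : ∀ L, (∀ a ∈ L, a ∈ (fun a => (π a : Λ)) '' K) → ∀ b ∈ E L,
        b ∈ (fun a => (π a : Λ)) '' K := by
      intro L hL b hb
      have hLH : ∀ a ∈ L, a ∈ H := by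
        intro a ha
        obtain ⟨c, -, rfl⟩ := hL a ha
        exact (π c).2
      have hex : ∃ L0 : List Λ, (∀ a ∈ L0, a ∈ K) ∧ L' L0 = L := by
        clear hb hLH
        induction L with
        | nil => exact ⟨[], by simp, rfl⟩
        | cons a L ih =>
          obtain ⟨L0, h1, h2⟩ := ih fun a ha => hL a (List.mem_cons_of_mem _ ha)
          obtain ⟨c, hc, rfl⟩ := hL a List.mem_cons_self
          refine ⟨c :: L0, ?_, ?_⟩
          · intro a ha
            rcases List.mem_cons.1 ha with rfl | ha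
            · exact hc
            · exact h1 a ha
          · show (π c : Λ) :: L' L0 = _
            rw [h2]
      obtain ⟨L0, h1, h2⟩ := hex
      have hb' : b ∈ (E (L' L0)).toList := by
        rw [h2, Finset.mem_toList]
        exact hb
      obtain ⟨n, hn, hbn⟩ := List.mem_iff_getElem.1 hb'
      have h3 := hK3 n L0 h1
      have h4 : (E (L' L0)).toList.getD n (π d) = b := by
        rw [List.getD_eq_getElem _ _ hn, hbn]
      have h5 : b ∈ H := hmem L0 b (by rw [Finset.mem_toList] at hb'; exact hb')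
      have h6 : f n L0 = π.symm ⟨b, h5⟩ := by
        simp only [f]
        have h7 : (E (L' L0)).toList.getD n (π d) ∈ H := by
          rw [h4]
          exact h5
        rw [dif_pos h7]
        congr 1
        exact Subtype.ext h4
      rw [h6] at h3
      exact ⟨_, h3, by simp⟩
    refine ⟨⟨(fun a => (π a : Λ)) '' K, ?_, hKcl⟩, ?_, ?_⟩
    · have hinj : Function.Injective fun a => (π a : Λ) := fun a b hab =>
        π.injective (Subtype.ext hab)
      rw [Cardinal.mk_image_eq hinj, hK2]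
    · rintro _ ⟨c, -, rfl⟩
      exact (π c).2
    · obtain ⟨c, hc⟩ := (Set.ne_univ_iff_exists_notMem K).1 hK1
      refine ⟨π c, (π c).2, ?_⟩
      rintro ⟨c', hc', h5⟩
      exact hc ((π.injective (Subtype.ext h5)) ▸ hc')
  choose nx hnx1 hnx2 using step
  choose x hx1 hx2 using hnx2
  let H : ℕ → {H : Set Λ // Good H} := fun n =>
    Nat.rec ⟨Set.univ, Cardinal.mk_univ, fun _ _ _ _ => trivial⟩ (fun _ H => nx H) n
  have hH : ∀ n, H (n + 1) = nx (H n) := fun n => rfl
  have hsub : ∀ m n, m ≤ n → (H n).1 ⊆ (H m).1 := by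
    intro m n hmn
    induction n, hmn using Nat.le_induction with
    | base => exact Set.Subset.refl _
    | succ n _ ih =>
      rw [hH n]
      exact (hnx1 (H n)).trans ih
  refine ⟨fun n => x (H n), fun m k hmem => ?_⟩
  refine hx2 (H m) ?_
  rw [← hH m]
  refine (H (m + 1)).2.2 _ ?_ _ hmem
  intro a ha
  unfold blk at ha
  obtain ⟨i, -, rfl⟩ := List.mem_map.1 ha
  exact hsub (m + 1) (m + 1 + i) (Nat.le_add_right _ _) (hx1 (H (m + 1 + i)))

end Pool.Agent.CQ
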