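import Mathlib
import Pool.Agent.Lib_helper80.CS.F.C5
import Pool.Agent.Lib_helper80.CS.F.C6
import Pool.Agent.Lib_helper80.CS.F.C7
import Pool.Agent.Lib_helper80.CS.F.C9
import Pool.Agent.Lib_helper80.CS.F.C10
import Pool.Agent.Lib_helper68.OG3

/-!
# CQ (MP_931ca8_lc): a rayless graph which fights `κ` many candidates, `2 ^ μ ≤ κ` for `μ < κ`
-/

set_option autoImplicit false
set_option linter.unusedSectionVars false

open Cardinal Ordinal Set

namespace Pool.Agent.CQ

open Pool.Agent.CS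

variable {V : Type} {κ : Cardinal.{0}}

/-- fewer than `κ` data on a small set -/
theorem fin_small (hκ : κ.IsRegular) (hκ0 : ℵ₀ < κ) (S : Type) (hS : #S < κ) :
    #(ℕ × Finset S) < κ := by
  rw [Cardinal.mk_prod, Cardinal.lift_id, Cardinal.lift_id, Cardinal.mk_nat]
  refine Cardinal.mul_lt_of_lt hκ.1 hκ0 ?_
  rcases finite_or_infinite S with h | h
  · have : Finite (Finset S) := inferInstance
    exact (Cardinal.lt_aleph0_of_finite _).trans hκ0
  · rw [Cardinal.mk_finset_of_infinite]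
    exact hS

theorem closure' (hκ : κ.IsRegular) (hκ0 : ℵ₀ < κ) (t : V → κ.ord.ToType)
    (hc : ∀ z : κ.ord.ToType, #{x | t x < z} < κ) (f : ℕ → Finset V → Option V)
    (g0 : κ.ord.ToType) :
    ∃ g, g0 ≤ g ∧ ∀ k (N : Finset V), (∀ w ∈ N, t w < g) → ∀ y, f k N = some y → t y < g := by
  classical
  have hb : ∀ S : Set κ.ord.ToType, #S < κ → ∃ b, ∀ x ∈ S, x < b := fun S hS =>
    Pool.Agent.H68.OG.exists_bound hκ S hS
  have hB : ∀ g : κ.ord.ToType, ∃ b : κ.ord.ToType, g < b ∧ ∀ (k : ℕ) (N : Finset V),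
      (∀ w ∈ N, t w < g) → ∀ y, f k N = some y → t y < b := by
    intro g
    let S : Type := {x : V // t x < g}
    have hS : #(ℕ × Finset S) < κ := fin_small hκ hκ0 S (hc g)
    let v : ℕ × Finset S → κ.ord.ToType := fun p =>
      match f p.1 (p.2.map (Function.Embedding.subtype _)) with
      | none => g
      | some y => t y
    have hsm : #(({g} : Set κ.ord.ToType) ∪ Set.range v : Set κ.ord.ToType) < κ := by
      refine lt_of_le_of_lt (Cardinal.mk_union_le _ _) (Cardinal.add_lt_of_lt hκ.1 ?_ ?_)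
      · simpa using one_lt_aleph0.trans_le hκ.1
      · exact lt_of_le_of_lt Cardinal.mk_range_le hS
    obtain ⟨b, hb1⟩ := hb _ hsm
    refine ⟨b, hb1 g (Or.inl rfl), ?_⟩
    intro k N hN y hy
    refine hb1 (t y) (Or.inr ⟨(k, N.subtype (fun x => t x < g)), ?_⟩)
    have hmap : (N.subtype (fun x => t x < g)).map (Function.Embedding.subtype _) = N :=
      Finset.subtype_map_of_mem hN
    show (match f k ((N.subtype (fun x => t x < g)).map (Function.Embedding.subtype _)) with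
      | none => g
      | some y => t y) = t y
    rw [hmap, hy]
  choose B hB1 hB2 using hB
  set G : ℕ → κ.ord.ToType := fun n => Nat.rec g0 (fun _ g => B g) n with hG
  have hG0 : G 0 = g0 := rfl
  have hGs : ∀ n, G (n + 1) = B (G n) := fun n => rfl
  have hmono : StrictMono G := strictMono_nat_of_lt_succ fun n => by
    rw [hGs]
    exact hB1 (G n)
  have hne : {b : κ.ord.ToType | ∀ n, G n < b}.Nonempty := by
    obtain ⟨b, hb1⟩ := hb (Set.range G) (lt_of_le_of_lt Cardinal.mk_range_le (by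
      rw [Cardinal.mk_nat]; exact hκ0))
    exact ⟨b, fun n => hb1 _ ⟨n, rfl⟩⟩
  set g := WellFounded.min (wellFounded_lt (α := κ.ord.ToType)) _ hne with hg
  have hgmem : ∀ n, G n < g := WellFounded.min_mem (wellFounded_lt (α := κ.ord.ToType)) _ hne
  have hlt : ∀ z, z < g → ∃ n, z < G n := by
    intro z hz
    by_contra hcon
    push Not at hcon
    have hzm : z ∈ {b : κ.ord.ToType | ∀ n, G n < b} := by
      intro n
      exact lt_of_lt_of_le (hmono (Nat.lt_succ_self n)) (hcon (n + 1))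
    exact WellFounded.not_lt_min (wellFounded_lt (α := κ.ord.ToType)) _ hzm hz
  refine ⟨g, (hG0 ▸ hgmem 0).le, ?_⟩
  intro k N hN y hy
  have hN' : ∃ n, ∀ w ∈ N, t w < G n := by
    clear hy
    induction N using Finset.induction_on with
    | empty => exact ⟨0, fun w hw => absurd hw (Finset.notMem_empty w)⟩
    | insert a N _ ih =>
      obtain ⟨n, hn⟩ := ih fun w hw => hN w (Finset.mem_insert_of_mem hw)
      obtain ⟨n', hn'⟩ := hlt _ (hN a (Finset.mem_insert_self a N))
      refine ⟨max n n', fun w hw => ?_⟩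
      rcases Finset.mem_insert.1 hw with rfl | hw
      · exact lt_of_lt_of_le hn' (hmono.monotone (le_max_right n n'))
      · exact lt_of_lt_of_le (hn w hw) (hmono.monotone (le_max_left n n'))
  obtain ⟨n, hn⟩ := hN'
  have h1 := hB2 (G n) k N hn y hy
  rw [← hGs] at h1
  exact h1.trans (hgmem (n + 1))

/-- the number of strategies on a small set -/
theorem strat_card (hκ : κ.IsRegular) (hκ0 : ℵ₀ < κ) (h2 : ∀ μ < κ, (2 : Cardinal.{0}) ^ μ ≤ κ)
    (S : Type) (hS : #S < κ) : #(ℕ → Finset S → Option S) ≤ κ := by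
  set μ := max #S ℵ₀ with hμ
  have hμκ : μ < κ := max_lt hS hκ0
  have hμ0 : ℵ₀ ≤ μ := le_max_right _ _
  have h1 : #(Option S) ≤ μ := by
    rw [Cardinal.mk_option]
    exact Cardinal.add_le_of_le hμ0 (le_max_left _ _) (Cardinal.one_le_aleph0.trans hμ0)
  have h3 : #(Finset S) ≤ μ := by
    rcases finite_or_infinite S with h | h
    · have : Finite (Finset S) := inferInstance
      exact (Cardinal.lt_aleph0_of_finite _).le.trans hμ0
    · rw [Cardinal.mk_finset_of_infinite]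
      exact le_max_left _ _
  have h4 : #(ℕ → Finset S → Option S) = (#(Option S) ^ #(Finset S)) ^ #ℕ := rfl
  have hμ1 : μ ≠ 0 := (aleph0_pos.trans_le hμ0).ne'
  rw [h4, Cardinal.mk_nat]
  calc (#(Option S) ^ #(Finset S)) ^ ℵ₀
      ≤ (μ ^ #(Finset S)) ^ ℵ₀ :=
        Cardinal.power_le_power_right (Cardinal.power_le_power_right h1)
    _ ≤ (μ ^ μ) ^ ℵ₀ :=
        Cardinal.power_le_power_right (Cardinal.power_le_power_left hμ1 h3)
    _ = μ ^ (μ * ℵ₀) := by rw [← Cardinal.power_mul]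
    _ = μ ^ μ := by rw [Cardinal.mul_aleph0_eq hμ0]
    _ = 2 ^ μ := Cardinal.power_self_eq hμ0
    _ ≤ κ := h2 μ hμκ

theorem guess' (hκ : κ.IsRegular) (hκ0 : ℵ₀ < κ) (h2 : ∀ μ < κ, (2 : Cardinal.{0}) ^ μ ≤ κ)
    (t : V → κ.ord.ToType) (hc : ∀ z : κ.ord.ToType, #{x | t x < z} < κ) :
    ∃ c : κ.ord.ToType → Cand V κ.ord.ToType, ∀ (g : κ.ord.ToType)
      (f : ℕ → Finset V → Option V), ∃ ξ, (c ξ).1 = g ∧
      ∀ k N, (∀ w ∈ N, t w < g) → (∀ y, f k N = some y → t y < g) → (c ξ).2 k N = f k N := by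
  classical
  have hΩ : #κ.ord.ToType = κ := by rw [Cardinal.mk_toType, Cardinal.card_ord]
  have hΩ0 : Nonempty κ.ord.ToType := by
    rw [← Cardinal.mk_ne_zero_iff, hΩ]
    exact hκ.pos.ne'
  have hP : #(c10_P t) ≤ #κ.ord.ToType := by
    rw [Cardinal.mk_sigma]
    calc Cardinal.sum (fun g : κ.ord.ToType =>
          #(ℕ → Finset {x : V // t x < g} → Option {x : V // t x < g}))
        ≤ Cardinal.sum (fun _ : κ.ord.ToType => κ) :=
          Cardinal.sum_le_sum _ _ (fun g => strat_card hκ hκ0 h2 _ (hc g))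
      _ = #κ.ord.ToType * κ := Cardinal.sum_const' _ _
      _ = #κ.ord.ToType := by
          rw [hΩ]
          exact Cardinal.mul_eq_self hκ.1
  obtain ⟨i⟩ : Nonempty (c10_P t ↪ κ.ord.ToType) := (Cardinal.le_def _ _).mp hP
  have hPn : Nonempty (c10_P t) := ⟨⟨hΩ0.some, fun _ _ => none⟩⟩
  have hsurj : Function.Surjective (Function.invFun i) := Function.invFun_surjective i.injective
  refine ⟨fun ξ => c10_val t (Function.invFun i ξ), ?_⟩
  intro g f
  obtain ⟨ξ, hξ⟩ := hsurj ⟨g, fun k N' =>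
    if h : ∃ y, f k (N'.map (Function.Embedding.subtype _)) = some y ∧ t y < g then
      some ⟨h.choose, h.choose_spec.2⟩ else none⟩
  refine ⟨ξ, ?_, ?_⟩
  · simp only [hξ, c10_val]
  · intro k N hN hy
    simp only [hξ]
    unfold c10_val
    simp only
    rw [if_pos hN]
    have hmap : (N.subtype (fun x => t x < g)).map (Function.Embedding.subtype _) = N :=
      Finset.subtype_map_of_mem hN
    rw [hmap]
    cases hf : f k N with
    | none =>
      rw [dif_neg (by simp)]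
      rfl
    | some y =>
      have hex : ∃ y', some y = some y' ∧ t y' < g := ⟨y, rfl, hy y hf⟩
      rw [dif_pos hex]
      simp only [Option.map_some]
      exact hex.choose_spec.1.symm

/-- the graph: the vertex `x` fights the candidates in `F x` -/
theorem fight (hκ : κ.IsRegular) (hκ0 : ℵ₀ < κ) (h2 : ∀ μ < κ, (2 : Cardinal.{0}) ^ μ ≤ κ)
    (t : V → κ.ord.ToType) (hc : ∀ z : κ.ord.ToType, #{x | t x < z} < κ)
    (F : V → Finset κ.ord.ToType) :
    ∃ out : V → Finset V,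
      (¬ ∃ f : ℕ → V, Function.Injective f ∧ ∀ n, f (n + 1) ∈ out (f n) ∨ f n ∈ out (f (n + 1))) ∧
      (∀ x, x ∉ out x) ∧
      ∀ D : Set V, (∀ x ∈ D, ∀ y ∈ D, y ∉ out x) → ∃ g ξ, ∀ x ∈ D, g ≤ t x → ξ ∉ F x := by
  classical
  obtain ⟨c, hcg⟩ := guess' hκ hκ0 h2 t hc
  -- the lists
  choose l hl1 hl2 hl3 hl4 using fun x => c7_sorted (fun ξ => (c ξ).1) (F x)
  let m : V → ℕ := fun x => (F x).card
  obtain ⟨out, rk, hF, hrk, hcap⟩ := exists_out t m (fun x => (l x).map c)
  refine ⟨out, no_path hF (fun k => 2 ^ k) ?_, ?_, ?_⟩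
  · intro x
    refine (hrk x).trans_le ?_
    rw [List.length_map, hl2]
  · intro x hx
    exact lt_irrefl _ (hF.lt x x hx)
  · intro D hD
    have hΩ0 : Nonempty κ.ord.ToType := by
      rw [← Cardinal.mk_ne_zero_iff, Cardinal.mk_toType, Cardinal.card_ord]
      exact hκ.pos.ne'
    obtain ⟨f, hf⟩ := c9_choice (fun k N y => y ∈ D ∧ m y = k ∧ N ⊆ out y) rk
    obtain ⟨g, -, hg⟩ := closure' hκ hκ0 t hc f hΩ0.some
    obtain ⟨ξ, hξ1, hξ2⟩ := hcg g f
    refine ⟨g, ξ, ?_⟩
    intro x hx hgx hξx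
    obtain ⟨p, q, hpq⟩ := List.append_of_mem ((hl1 x ξ).2 hξx)
    obtain ⟨N, hN1, hN2, hN3⟩ := hcap x (p.map c) (c ξ) (q.map c) (by
        show (l x).map c = _
        rw [hpq, List.map_append, List.map_cons]) (by
        intro d hd
        obtain ⟨η, hη, rfl⟩ := List.mem_map.1 hd
        have hpw := hl3 x
        rw [hpq] at hpw
        exact (List.pairwise_append.1 hpw).2.2 η hη ξ List.mem_cons_self)
    rw [hξ1] at hN2 hN3
    obtain ⟨hfa, hfb⟩ := hf (m x) N
    obtain ⟨y, hy⟩ := hfb ⟨x, hx, rfl, hN1⟩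
    obtain ⟨⟨hyD, hym, hyN⟩, hymin⟩ := hfa y hy
    have hty : t y < g := hg (m x) N hN2 y hy
    have hval : (c ξ).2 (m x) N = some y := by
      rw [hξ2 (m x) N hN2 (fun y' hy' => hg (m x) N hN2 y' hy')]
      exact hy
    obtain ⟨hne, hlt⟩ := hN3 y hval (hty.trans_le hgx) hty hym hyN
    have hle : rk y ≤ rk x := hymin x ⟨hx, rfl, hN1⟩
    exact hD x hx y hyD (hlt (lt_of_le_of_ne hle hne))

end Pool.Agent.CQ
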