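import Mathlib
import Pool.Agent.Lib_helper80.CQ.Neg
import Pool.Agent.Lib_helper80.CQ.Pos2

/-!
# CQ (MP_931ca8_lc): the negative half of the criterion
-/

set_option autoImplicit false
set_option linter.unusedSectionVars false
set_option linter.deprecated false

open Cardinal Ordinal Set

namespace Pool.Agent.CQ

open Pool.Agent.H68.OG

/-- an increasing map of `k * δ` into the blocks from `G` -/
theorem type_blocks {k δ : Ordinal.{0}} (hk : k ≠ 0) (G : Set δ.ToType)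
    (h : Ordinal.{0} → Ordinal.{0}) (hm : ∀ x y, x < y → y < k * δ → h x < h y)
    (hG : ∀ x < k * δ, ∃ hx : h x / k < δ, Ordinal.ToType.mk ⟨h x / k, hx⟩ ∈ G) :
    δ ≤ typ G := by
  classical
  by_contra hcon
  rw [not_le] at hcon
  have hlt : k * typ G < k * δ := (mul_lt_mul_iff_right₀ (pos_iff_ne_zero.2 hk)).2 hcon
  choose hx hG using hG
  let ρ : Ordinal.{0} → Ordinal.{0} := fun x => if hxk : x < k * δ then
    Ordinal.typein (fun x y : G => x < y) ⟨Ordinal.ToType.mk ⟨h x / k, hx x hxk⟩, hG x hxk⟩ else 0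
  have hρ1 : ∀ x < k * δ, ρ x < typ G := by
    intro x hxk
    simp only [ρ, hxk, dif_pos]
    exact Ordinal.typein_lt_type _ _
  have hρ2 : ∀ x y (hxk : x < k * δ) (hyk : y < k * δ), h x / k < h y / k → ρ x < ρ y := by
    intro x y hxk hyk hxy
    simp only [ρ, hxk, hyk, dif_pos]
    rw [Ordinal.typein_lt_typein]
    show (Ordinal.ToType.mk ⟨h x / k, hx x hxk⟩ : δ.ToType) < Ordinal.ToType.mk ⟨h y / k, hx y hyk⟩
    rw [OrderIso.lt_iff_lt]
    exact hxy
  have hρ3 : ∀ x y (hxk : x < k * δ) (hyk : y < k * δ), h x / k = h y / k → ρ x = ρ y := by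
    intro x y hxk hyk hxy
    simp only [ρ, hxk, hyk, dif_pos]
    congr 2
    simp only [hxy]
  let φ : Ordinal.{0} → Ordinal.{0} := fun x => k * ρ x + h x % k
  have hφ1 : ∀ x < k * δ, φ x < k * typ G := by
    intro x hxk
    calc k * ρ x + h x % k < k * ρ x + k := (add_lt_add_iff_left _).2 (Ordinal.mod_lt _ hk)
      _ = k * Order.succ (ρ x) := (Ordinal.mul_succ _ _).symm
      _ ≤ k * typ G := mul_le_mul_right (Order.succ_le_of_lt (hρ1 x hxk)) k
  have hφ2 : ∀ x y, x < y → y < k * δ → φ x < φ y := by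
    intro x y hxy hyk
    have hxk := hxy.trans hyk
    have h1 := hm x y hxy hyk
    have h2 : h x / k ≤ h y / k :=
      (Ordinal.le_div hk).2 ((Ordinal.mul_div_le _ _).trans h1.le)
    rcases h2.eq_or_lt with h3 | h3
    · show k * ρ x + h x % k < k * ρ y + h y % k
      rw [hρ3 x y hxk hyk h3]
      refine (add_lt_add_iff_left _).2 ?_
      have h4 : k * (h x / k) + h x % k < k * (h y / k) + h y % k := by
        rw [Ordinal.div_add_mod, Ordinal.div_add_mod]
        exact h1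
      rw [h3] at h4
      exact (add_lt_add_iff_left _).1 h4
    · calc k * ρ x + h x % k < k * ρ x + k := (add_lt_add_iff_left _).2 (Ordinal.mod_lt _ hk)
        _ = k * Order.succ (ρ x) := (Ordinal.mul_succ _ _).symm
        _ ≤ k * ρ y := mul_le_mul_right (Order.succ_le_of_lt (hρ2 x y hxk hyk h3)) k
        _ ≤ k * ρ y + h y % k := le_self_add
  have hge : ∀ x, x < k * δ → x ≤ φ x := by
    intro x
    induction x using WellFoundedLT.induction with
    | ind x IH =>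
      intro hxk
      refine le_of_forall_lt ?_
      intro c hc
      exact lt_of_le_of_lt (IH c hc (hc.trans hxk)) (hφ2 c x hc hxk)
  exact absurd (hge _ hlt) (not_le.2 (hφ1 _ hlt))

theorem card_mul_le {κ : Cardinal.{0}} (hκ : κ.IsRegular) {δ : Ordinal.{0}} (hδ : δ.card ≤ κ) :
    (κ.ord * δ).card ≤ κ := by
  rw [Ordinal.card_mul, Cardinal.card_ord]
  exact Cardinal.mul_le_of_le hκ.1 le_rfl hδ

theorem not_pi {κ : Cardinal.{0}} (hκ : κ.IsRegular) (hκ0 : ℵ₀ < κ)
    (h2 : ∀ μ < κ, (2 : Cardinal.{0}) ^ μ ≤ κ) (δ ε : Ordinal.{0})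
    (hδ : δ.card ≤ κ) (hP : ¬ Part κ δ) (hε : ε < κ.ord) : ¬ PI (κ.ord * δ + ε) := by
  classical
  intro hPI
  have hk0 : κ.ord ≠ 0 := (zero_lt_one.trans (one_lt_ord hκ)).ne'
  have hδ0 : δ ≠ 0 := by
    rintro rfl
    refine hP fun F => ⟨Classical.choice ?_, ?_⟩
    · rw [← Cardinal.mk_ne_zero_iff, Cardinal.mk_toType, Cardinal.card_ord]
      exact hκ.pos.ne'
    · exact le_antisymm (typ_le 0 _) zero_le
  unfold Part at hP
  push Not at hP
  obtain ⟨F₀, hF₀⟩ := hP
  have hN : Nonempty (κ.ord * δ + ε).ToType := by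
    refine Ordinal.nonempty_toType_iff.2 ?_
    intro h0
    have h3 : κ.ord * δ ≤ κ.ord * δ + ε := le_self_add
    rw [h0] at h3
    exact mul_ne_zero hk0 hδ0 (le_antisymm h3 zero_le)
  -- the injection
  have hV : #(κ.ord * δ + ε).ToType ≤ κ := by
    rw [Cardinal.mk_toType, Ordinal.card_add]
    exact Cardinal.add_le_of_le hκ.1 (card_mul_le hκ hδ) (Cardinal.lt_ord.1 hε).le
  have hr : ∃ r : (κ.ord * δ + ε).ToType → κ.ord.ToType, Function.Injective r := by
    have h1 : #(κ.ord * δ + ε).ToType ≤ #κ.ord.ToType := by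
      rw [Cardinal.mk_toType κ.ord, Cardinal.card_ord]
      exact hV
    obtain ⟨e⟩ := Cardinal.le_def _ _ |>.1 h1
    exact ⟨e, e.injective⟩
  obtain ⟨t, ht⟩ := hr
  let e := (Ordinal.ToType.mk (o := κ.ord * δ + ε)).symm
  let F : (κ.ord * δ + ε).ToType → Finset κ.ord.ToType := fun x =>
    if h : (e x).1 / κ.ord < δ then F₀ (Ordinal.ToType.mk ⟨(e x).1 / κ.ord, h⟩) else ∅
  obtain ⟨out, hpath, hirr, hD⟩ := fight hκ hκ0 h2 t (fun z => mk_lt_of_r ht z) F
  let G : SimpleGraph (κ.ord * δ + ε).ToType :=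
    { Adj := fun x y => y ∈ out x ∨ x ∈ out y
      symm := ⟨fun x y hxy => hxy.symm⟩
      loopless := ⟨fun x hx => hx.elim (hirr x) (hirr x)⟩ }
  rcases hPI G with ⟨f, hf, hadj⟩ | ⟨S, hS, hSt⟩
  · exact hpath ⟨f, hf, hadj⟩
  obtain ⟨g, ξ, hgξ⟩ := hD S (fun x hx y hy hmem => hS x hx y hy (Or.inl hmem))
  have hTS : TG S (κ.ord * δ + ε) := tg_of_le_typ (le_of_eq hSt.symm)
  obtain ⟨S₁, -, hS₁, -, hT₁, -, -⟩ := hTS.split
  -- the small sets
  have hR : #({x | t x < g} ∪ {x | κ.ord * δ ≤ (e x).1} : Set (κ.ord * δ + ε).ToType) < κ := by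
    refine lt_of_le_of_lt (Cardinal.mk_union_le _ _)
      (Cardinal.add_lt_of_lt hκ.1 (mk_lt_of_r ht g) ?_)
    have hlt : ∀ x : (κ.ord * δ + ε).ToType, κ.ord * δ ≤ (e x).1 → (e x).1 - κ.ord * δ < ε := by
      intro x hx
      have h1 : (e x).1 < κ.ord * δ + ε := (e x).2
      rw [← Ordinal.add_sub_cancel_of_le hx] at h1
      exact (add_lt_add_iff_left _).1 h1
    refine lt_of_le_of_lt ?_ (Cardinal.lt_ord.1 hε)
    rw [← Cardinal.mk_toType ε]
    refine Cardinal.mk_le_of_injective (f := fun x : {x | κ.ord * δ ≤ (e x).1} =>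
      (Ordinal.ToType.mk ⟨(e x.1).1 - κ.ord * δ, hlt x.1 x.2⟩ : ε.ToType)) ?_
    intro a b hab
    have h3 := congrArg Subtype.val ((Ordinal.ToType.mk (o := ε)).injective hab)
    simp only at h3
    have h4 : (e a.1).1 = (e b.1).1 := by
      rw [← Ordinal.add_sub_cancel_of_le (show κ.ord * δ ≤ (e a.1).1 from a.2),
        ← Ordinal.add_sub_cancel_of_le (show κ.ord * δ ≤ (e b.1).1 from b.2), h3]
    exact Subtype.ext (e.injective (Subtype.ext h4))
  obtain ⟨h, hh, hhm⟩ := TG.remove hκ hR δ S₁ hT₁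
  refine hF₀ ξ (le_antisymm (typ_le δ _) ?_)
  refine type_blocks hk0 {i | ξ ∉ F₀ i} (fun x => (e (h x)).1) ?_ ?_
  · intro x y hxy hy
    exact e.lt_iff_lt.2 (hhm x y hxy hy)
  · intro x hx
    obtain ⟨h3, h4⟩ := hh x hx
    have h5 : (e (h x)).1 < κ.ord * δ := by
      by_contra hcon
      exact h4 (Or.inr (not_lt.1 hcon))
    have h6 : g ≤ t (h x) := by
      by_contra hcon
      exact h4 (Or.inl (not_le.1 hcon))
    have h7 : (e (h x)).1 / κ.ord < δ := (Ordinal.lt_mul_iff_div_lt hk0).1 h5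
    refine ⟨h7, ?_⟩
    have h8 := hgξ (h x) (hS₁ h3) h6
    have h9 : F (h x) = F₀ (Ordinal.ToType.mk ⟨(e (h x)).1 / κ.ord, h7⟩) := dif_pos h7
    rw [h9] at h8
    exact h8

end Pool.Agent.CQ
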