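import Mathlib
import Pool.Agent.Lib_helper80.CQ.RF

/-!
# CQ (MP_931ca8_lc): reverse-free sequences give the omission property
-/

set_option autoImplicit false
set_option linter.unusedSectionVars false
set_option linter.deprecated false

open Cardinal Ordinal Set

namespace Pool.Agent.CQ

open Pool.Agent.H68.OG

/-- the iterated position -/
noncomputable def idx {Λ : Type} (δ : Ordinal.{0}) (ρ : Λ → Ordinal.{0} → Ordinal.{0}) :
    List Λ → Ordinal.{0}
  | [] => δ
  | c :: L => ρ c (idx δ ρ L)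

/-- the descent -/
theorem descent {Λ : Type} (δ : Ordinal.{0}) (F : Ordinal.{0} → Finset Λ)
    (ρ : Λ → Ordinal.{0} → Ordinal.{0}) (h1 : ∀ c, ρ c δ < δ)
    (h2 : ∀ c β β', β < δ → c ∉ F β → β < β' → ρ c β < ρ c β') : ¬ RF Λ := by
  classical
  intro h
  obtain ⟨x, hx⟩ := h fun L => F (idx δ ρ L)
  have key : ∀ k m, idx δ ρ (blk x m (k + 1)) < idx δ ρ (blk x m k) ∧
      idx δ ρ (blk x m (k + 1)) < δ := by
    intro k
    induction k with
    | zero =>
      intro m
      rw [blk_succ, blk_zero, blk_zero]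
      exact ⟨h1 _, h1 _⟩
    | succ k ih =>
      intro m
      obtain ⟨h3, h4⟩ := ih (m + 1)
      have h5 : idx δ ρ (blk x m (k + 1 + 1)) < idx δ ρ (blk x m (k + 1)) := by
        rw [blk_succ x m (k + 1), blk_succ x m k]
        exact h2 _ _ _ h4 (hx m (k + 1)) h3
      exact ⟨h5, h5.trans (ih m).2⟩
  exact (RelEmbedding.not_wellFounded (RelEmbedding.natGT (r := (· < ·))
    (fun k => idx δ ρ (blk x 0 k)) fun k => (key k 0).1)) wellFounded_lt

/-- reverse-free sequences give the omission property for all `δ` -/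
theorem part_of_rf {κ : Cardinal.{0}} (h : RF κ.ord.ToType) (δ : Ordinal.{0}) : Part κ δ := by
  classical
  intro F
  by_contra hcon
  push Not at hcon
  have hτ : ∀ c, typ {i : δ.ToType | c ∉ F i} < δ := fun c =>
    lt_of_le_of_ne (typ_le δ _) (hcon c)
  let F' : Ordinal.{0} → Finset κ.ord.ToType := fun β =>
    if hβ : β < δ then F (Ordinal.ToType.mk ⟨β, hβ⟩) else ∅
  have hF' : ∀ β (hβ : β < δ), F' β = F (Ordinal.ToType.mk ⟨β, hβ⟩) := fun β hβ => dif_pos hβ
  let ρ : κ.ord.ToType → Ordinal.{0} → Ordinal.{0} := fun c β =>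
    if hβ : ∃ h : β < δ, c ∉ F (Ordinal.ToType.mk ⟨β, h⟩) then
      Ordinal.typein (fun x y : {i : δ.ToType | c ∉ F i} => x < y)
        ⟨Ordinal.ToType.mk ⟨β, hβ.1⟩, hβ.2⟩
    else typ {i : δ.ToType | c ∉ F i}
  refine descent δ F' ρ ?_ ?_ h
  · intro c
    have : ¬ ∃ h : δ < δ, c ∉ F (Ordinal.ToType.mk ⟨δ, h⟩) := fun ⟨h, _⟩ => lt_irrefl _ h
    simp only [ρ, this, dif_neg, not_false_eq_true]
    exact hτ c
  · intro c β β' hβ hc hlt
    rw [hF' β hβ] at hc
    have hex : ∃ h : β < δ, c ∉ F (Ordinal.ToType.mk ⟨β, h⟩) := ⟨hβ, hc⟩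
    by_cases hex' : ∃ h : β' < δ, c ∉ F (Ordinal.ToType.mk ⟨β', h⟩)
    · simp only [ρ, hex, hex', dif_pos]
      rw [Ordinal.typein_lt_typein]
      show (Ordinal.ToType.mk ⟨β, hex.1⟩ : δ.ToType) < Ordinal.ToType.mk ⟨β', hex'.1⟩
      rw [OrderIso.lt_iff_lt]
      exact hlt
    · simp only [ρ, hex, hex', dif_pos, dif_neg, not_false_eq_true]
      exact Ordinal.typein_lt_type _ _

end Pool.Agent.CQ
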