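import Mathlib
import Pool.Agent.Lib_helper68.OG16
import Pool.Agent.Lib_helper80.CQ.RFP

/-!
# CQ (MP_931ca8_lc): singular cardinals (after helper68's `singular_lemma`)
-/

set_option autoImplicit false
set_option linter.unusedSectionVars false
set_option linter.deprecated false

open Cardinal Ordinal Set

namespace Pool.Agent.CQ

open Pool.Agent.H68.OG

variable {V : Type} [LinearOrder V] [WellFoundedLT V]

theorem singular_lemma' {κ μ : Cardinal.{0}} (hμ : μ.IsRegular) (hμκ : μ < κ)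
    (hcof : κ.ord.cof < μ) (f : V → Finset V) {Ξ : Type} (hΞ : #Ξ ≤ κ) (E : Ξ → Set V)
    (hE : ∀ ξ, κ ≤ #(E ξ)) (hdisj : ∀ ξ ζ, ξ ≠ ζ → ∀ v ∈ E ξ, v ∉ E ζ) :
    ∃ X : μ.ord.ToType → Set V, (∀ η, ∀ x ∈ X η, ∀ y ∈ X η, x ≠ y → y ∉ f x) ∧
      ∀ ξ, {η : μ.ord.ToType | ¬ κ ≤ #(X η ∩ E ξ : Set V)}.Countable := by
  classical
  have hμ0 : ℵ₀ ≤ μ := hμ.1
  have hκ0 : ℵ₀ ≤ κ := hμ0.trans hμκ.le
  obtain ⟨J, iJ, wJ, G, ρ, hJ, hρr, hμρ, hρκ, hGρ, hGcof, hsum⟩ := exists_scale hμ0 hμκ hcof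
  obtain ⟨r⟩ : Nonempty (Ξ ↪ κ.ord.ToType) := by
    rw [← Cardinal.le_def, Cardinal.mk_toType, Cardinal.card_ord]; exact hΞ
  let rr : Ξ → Ordinal.{0} := fun ξ => (Ordinal.ToType.mk.symm (r ξ)).1
  have hrr : Function.Injective rr := by
    intro a b hab
    exact r.injective ((Ordinal.ToType.mk (o := κ.ord)).symm.injective (Subtype.ext hab))
  have hrκ : ∀ ξ, rr ξ < κ.ord := fun ξ => (Ordinal.ToType.mk.symm (r ξ)).2
  have hN : ∀ j, #{ξ : Ξ // rr ξ < G j} < ρ j := by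
    intro j
    refine lt_of_le_of_lt ?_ (hGρ j)
    rw [← Cardinal.mk_toType (G j)]
    refine Cardinal.mk_le_of_injective (f := fun ξ : {ξ : Ξ // rr ξ < G j} =>
      (Ordinal.ToType.mk (o := G j) ⟨rr ξ.1, ξ.2⟩)) ?_
    intro a b hab
    have h1 := (Ordinal.ToType.mk (o := G j)).injective hab
    exact Subtype.ext (hrr (Subtype.mk.inj h1))
  let KK : J → (J → μ.ord.ToType → Set V) → μ.ord.ToType → Set V :=
    fun c g η => ⋃ d ∈ Iio c, g d η
  let S : J → (J → μ.ord.ToType → Set V) → (μ.ord.ToType → Set V) → Prop := fun c g Y =>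
    (#(⋃ η, KK c g η) < ρ c → (∀ η ζ, η ≠ ζ → ∀ v ∈ KK c g η, v ∉ KK c g ζ) →
      (∀ η ζ, η ≠ ζ → ∀ v ∈ Y η, v ∉ Y ζ) ∧ (∀ η, ∀ v ∈ Y η, ∀ ζ, v ∉ KK c g ζ) ∧
      #(⋃ η, Y η) ≤ ρ c ∧
      (∀ η, ∀ v ∈ Y η, (∀ ζ, ∀ w ∈ KK c g ζ, v ∉ f w) ∧ ∀ w ∈ f v, w ∉ KK c g η) ∧
      (∀ η, ∀ v ∈ Y η, ∀ w ∈ Y η, v ≠ w → w ∉ f v) ∧
      ∀ n : {ξ : Ξ // rr ξ < G c}, ∃ b : Finset μ.ord.ToType, ∀ η, η ∉ b →
        ρ c ≤ #(Y η ∩ E n.1 : Set V))
  obtain ⟨Y, hY⟩ := exists_rec' S (by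
      intro c g
      by_cases h1 : #(⋃ η, KK c g η) < ρ c
      · by_cases h2 : ∀ η ζ, η ≠ ζ → ∀ v ∈ KK c g η, v ∉ KK c g ζ
        · obtain ⟨Y, hY⟩ := phase_step (hρr c) (hμρ c) hμ0 f (hN c) (fun n => E n.1)
            (fun n => (hρκ c).le.trans (hE n.1))
            (fun n m hnm => hdisj n.1 m.1 fun h => hnm (Subtype.ext h)) (KK c g) h1 h2
          exact ⟨Y, fun _ _ => hY⟩
        · exact ⟨fun _ => ∅, fun _ h => absurd h h2⟩
      · exact ⟨fun _ => ∅, fun h => absurd h h1⟩) (by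
      intro c g g' y h hS
      have hKK : KK c g = KK c g' := by
        funext η
        simp only [KK]
        refine Set.iUnion₂_congr ?_
        intro d hd
        rw [h d hd]
      simp only [S] at hS ⊢
      rw [← hKK]
      exact hS)
  have hmem : ∀ c g η v, v ∈ KK c g η ↔ ∃ d, d < c ∧ v ∈ g d η := by
    intro c g η v
    simp only [KK, Set.mem_iUnion, Set.mem_Iio, exists_prop]
  -- all hypotheses hold along the recursion
  have hgood : ∀ c, #(⋃ η, Y c η) ≤ ρ c ∧ #(⋃ η, KK c Y η) < ρ c ∧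
      (∀ η ζ, η ≠ ζ → ∀ v ∈ KK c Y η, v ∉ KK c Y ζ) := by
    intro c
    induction c using WellFoundedLT.induction with
    | ind c IH =>
      have h1 : #(⋃ η, KK c Y η) < ρ c := by
        have h2 : (⋃ η, KK c Y η) ⊆ ⋃ d : Iio c, ⋃ η, Y d.1 η := by
          intro v hv
          obtain ⟨η, hη⟩ := Set.mem_iUnion.1 hv
          obtain ⟨d, hd, hvd⟩ := (hmem c Y η v).1 hη
          exact Set.mem_iUnion.2 ⟨⟨d, hd⟩, Set.mem_iUnion.2 ⟨η, hvd⟩⟩
        refine lt_of_le_of_lt (Cardinal.mk_le_mk_of_subset h2) ?_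
        refine lt_of_le_of_lt (Cardinal.mk_iUnion_le_sum_mk) ?_
        refine lt_of_le_of_lt ?_ (hsum c)
        exact Cardinal.sum_le_sum _ _ fun d => (IH d.1 d.2).1
      have h3 : ∀ η ζ, η ≠ ζ → ∀ v ∈ KK c Y η, v ∉ KK c Y ζ := by
        intro η ζ hne v hv hv'
        obtain ⟨d, hd, hvd⟩ := (hmem c Y η v).1 hv
        obtain ⟨d', hd', hvd'⟩ := (hmem c Y ζ v).1 hv'
        rcases lt_trichotomy d d' with h | h | h
        · have h4 := (hY d' (IH d' hd').2.1 (IH d' hd').2.2).2.1 ζ v hvd' η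
          exact h4 ((hmem d' Y η v).2 ⟨d, h, hvd⟩)
        · subst h
          exact (hY d (IH d hd).2.1 (IH d hd).2.2).1 η ζ hne v hvd hvd'
        · have h4 := (hY d (IH d hd).2.1 (IH d hd).2.2).2.1 η v hvd ζ
          exact h4 ((hmem d Y ζ v).2 ⟨d', h, hvd'⟩)
      exact ⟨(hY c h1 h3).2.2.1, h1, h3⟩
  have hprop := fun c => hY c (hgood c).2.1 (hgood c).2.2
  refine ⟨fun η => ⋃ c, Y c η, ?_, ?_⟩
  · intro η x hx y hy hne hyx
    obtain ⟨c, hc⟩ := Set.mem_iUnion.1 hx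
    obtain ⟨d, hd⟩ := Set.mem_iUnion.1 hy
    rcases lt_trichotomy c d with h | h | h
    · exact ((hprop d).2.2.2.1 η y hd).1 η x ((hmem d Y η x).2 ⟨c, h, hc⟩) hyx
    · subst h
      exact (hprop c).2.2.2.2.1 η x hc y hd hne hyx
    · exact ((hprop c).2.2.2.1 η x hc).2 y hyx ((hmem c Y η y).2 ⟨d, h, hd⟩)
  · intro ξ
    have hb : ∀ c, ∃ b : Finset μ.ord.ToType, rr ξ < G c → ∀ η, η ∉ b →
        ρ c ≤ #(Y c η ∩ E ξ : Set V) := by
      intro c
      by_cases h : rr ξ < G c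
      · obtain ⟨b, hb⟩ := (hprop c).2.2.2.2.2 ⟨ξ, h⟩
        exact ⟨b, fun _ => hb⟩
      · exact ⟨∅, fun h' => absurd h' h⟩
    choose b hb using hb
    -- a good colour
    have hgoodη : ∀ η, (∀ β < κ.ord, ∃ c, β < G c ∧ η ∉ b c) →
        κ ≤ #((⋃ c, Y c η) ∩ E ξ : Set V) := by
      intro η hη
      by_contra hcon
      rw [not_le] at hcon
      have h1 : max (rr ξ) (#((⋃ c, Y c η) ∩ E ξ : Set V)).ord < κ.ord :=
        max_lt (hrκ ξ) (Cardinal.ord_lt_ord.2 hcon)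
      obtain ⟨c, hc, h3⟩ := hη _ h1
      have h2 : rr ξ < G c := (le_max_left _ _).trans_lt hc
      have h4 := hb c h2 η h3
      have h5 : #(Y c η ∩ E ξ : Set V) ≤ #((⋃ c, Y c η) ∩ E ξ : Set V) := by
        refine Cardinal.mk_le_mk_of_subset ?_
        rintro v ⟨hv1, hv2⟩
        exact ⟨Set.mem_iUnion.2 ⟨c, hv1⟩, hv2⟩
      have h6 : (#((⋃ c, Y c η) ∩ E ξ : Set V)).ord < G c := (le_max_right _ _).trans_lt hc
      have h7 : #((⋃ c, Y c η) ∩ E ξ : Set V) ≤ (G c).card := by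
        rw [← Cardinal.card_ord (#((⋃ c, Y c η) ∩ E ξ : Set V))]
        exact Ordinal.card_le_card h6.le
      exact absurd (h7.trans_lt (hGρ c)) (not_lt.2 (h4.trans h5))
    have hbadη : ∀ η : μ.ord.ToType, ¬ κ ≤ #((⋃ c, Y c η) ∩ E ξ : Set V) →
        ∃ β < κ.ord, ∀ c, β < G c → η ∈ b c := by
      intro η hη
      by_contra hcon
      push Not at hcon
      exact hη (hgoodη η hcon)
    choose! th hth1 hth2 using hbadη
    by_cases hω : ∃ γ : ℕ → Ordinal.{0}, (∀ i, γ i < κ.ord) ∧ ∀ β < κ.ord, ∃ i, β ≤ γ i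
    · obtain ⟨γ, hγ1, hγ2⟩ := hω
      choose c hc using fun i => hGcof (γ i) (hγ1 i)
      refine (Set.countable_iUnion fun i => (b (c i)).countable_toSet).mono ?_
      intro η hη
      obtain ⟨i, hi⟩ := hγ2 (th η) (hth1 η hη)
      refine Set.mem_iUnion.2 ⟨i, ?_⟩
      exact hth2 η hη (c i) (hi.trans_lt (hc i))
    · push Not at hω
      refine Set.Finite.countable ?_
      by_contra hinf
      let e := Set.Infinite.natEmbedding _ hinf
      obtain ⟨β, hβ1, hβ2⟩ := hω (fun i => th (e i)) fun i => hth1 _ (e i).2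
      obtain ⟨c, hc⟩ := hGcof β hβ1
      refine (b c).finite_toSet.not_infinite ?_
      refine Set.infinite_of_injective_forall_mem (f := fun i => (e i : μ.ord.ToType)) ?_ ?_
      · intro i j hij
        exact e.injective (Subtype.ext hij)
      · intro i
        exact hth2 _ (e i).2 c ((hβ2 i).trans hc)

/-- countable sets instead of finite sets -/
theorem RF.countable {Λ : Type} (h : RF Λ) (E : List Λ → Set Λ) (hE : ∀ L, (E L).Countable) :
    ∃ x : ℕ → Λ, ∀ m k, x m ∉ E (blk x (m + 1) k) := by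
  classical
  have hen : ∀ L, ∃ e : ℕ → Option Λ, ∀ a ∈ E L, ∃ i, e i = some a := by
    intro L
    obtain ⟨f, hf⟩ := Set.countable_iff_exists_injOn.mp (hE L)
    refine ⟨fun i => if hi : ∃ a, a ∈ E L ∧ f a = i then some hi.choose else none, ?_⟩
    intro a ha
    refine ⟨f a, ?_⟩
    have hex : ∃ a', a' ∈ E L ∧ f a' = f a := ⟨a, ha, rfl⟩
    have h2 : (if hi : ∃ a', a' ∈ E L ∧ f a' = f a then some hi.choose else none) =
        some hex.choose := dif_pos hex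
    exact h2.trans (congrArg some (hf hex.choose_spec.1 ha hex.choose_spec.2))
  choose e he using hen
  obtain ⟨x, hx⟩ := h fun L => L.inits.toFinset.biUnion fun p =>
    (Finset.range (L.length + 1)).biUnion fun i => (e p i).toFinset
  refine ⟨x, fun m k hmem => ?_⟩
  obtain ⟨i, hi⟩ := he _ _ hmem
  refine hx m (max k i) ?_
  have hpre : ∀ l a : ℕ, a ≤ l → blk x (m + 1) a <+: blk x (m + 1) l := by
    intro l a hal
    induction l, hal using Nat.le_induction with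
    | base => exact List.prefix_rfl
    | succ l hl ih =>
      rw [blk_succ']
      exact ih.trans (List.prefix_append _ _)
  have hlen : (blk x (m + 1) (max k i)).length = max k i := by
    unfold blk
    rw [List.length_map, List.length_range]
  rw [Finset.mem_biUnion]
  refine ⟨blk x (m + 1) k, ?_, ?_⟩
  · rw [List.mem_toFinset, List.mem_inits]
    exact hpre _ _ (le_max_left _ _)
  · rw [Finset.mem_biUnion]
    refine ⟨i, ?_, ?_⟩
    · rw [Finset.mem_range, hlen]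
      exact Nat.lt_succ_of_le (le_max_right _ _)
    · rw [hi]
      simp

/-- the omission property for countable sets -/
theorem part_countable {μ : Cardinal.{0}} (h : RF μ.ord.ToType) (δ : Ordinal.{0})
    (F : δ.ToType → Set μ.ord.ToType) (hF : ∀ i, (F i).Countable) :
    ∃ c, typ {i : δ.ToType | c ∉ F i} = δ := by
  classical
  by_contra hcon
  push Not at hcon
  have hτ : ∀ c, typ {i : δ.ToType | c ∉ F i} < δ := fun c =>
    lt_of_le_of_ne (typ_le δ _) (hcon c)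
  let F' : Ordinal.{0} → Set μ.ord.ToType := fun β =>
    if hβ : β < δ then F (Ordinal.ToType.mk ⟨β, hβ⟩) else ∅
  have hF' : ∀ β (hβ : β < δ), F' β = F (Ordinal.ToType.mk ⟨β, hβ⟩) := fun β hβ => dif_pos hβ
  have hFc : ∀ β, (F' β).Countable := by
    intro β
    by_cases hβ : β < δ
    · rw [hF' β hβ]
      exact hF _
    · have : F' β = ∅ := dif_neg hβ
      rw [this]
      exact Set.countable_empty
  let ρ : μ.ord.ToType → Ordinal.{0} → Ordinal.{0} := fun c β =>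
    if hβ : ∃ h : β < δ, c ∉ F (Ordinal.ToType.mk ⟨β, h⟩) then
      Ordinal.typein (fun x y : {i : δ.ToType | c ∉ F i} => x < y)
        ⟨Ordinal.ToType.mk ⟨β, hβ.1⟩, hβ.2⟩
    else typ {i : δ.ToType | c ∉ F i}
  have h1 : ∀ c, ρ c δ < δ := by
    intro c
    have : ¬ ∃ h : δ < δ, c ∉ F (Ordinal.ToType.mk ⟨δ, h⟩) := fun ⟨h, _⟩ => lt_irrefl _ h
    simp only [ρ, this, dif_neg, not_false_eq_true]
    exact hτ c
  have h2 : ∀ c β β', β < δ → c ∉ F' β → β < β' → ρ c β < ρ c β' := by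
    intro c β β' hβ hc hlt
    rw [hF' β hβ] at hc
    have hex : ∃ h : β < δ, c ∉ F (Ordinal.ToType.mk ⟨β, h⟩) := ⟨hβ, hc⟩
    by_cases hex' : ∃ h : β' < δ, c ∉ F (Ordinal.ToType.mk ⟨β', h⟩)
    · simp only [ρ, hex, hex', dif_pos]
      rw [Ordinal.typein_lt_typein]
      show (Ordinal.ToType.mk ⟨β, hex.1⟩ : δ.ToType) < Ordinal.ToType.mk ⟨β', hex'.1⟩
      rw [OrderIso.lt_iff_lt]
      exact hlt
    · simp only [ρ, hex, hex', dif_pos, dif_neg, not_false_eq_true]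
      exact Ordinal.typein_lt_type _ _
  obtain ⟨x, hx⟩ := h.countable (fun L => F' (idx δ ρ L)) fun L => hFc _
  have key : ∀ k m, idx δ ρ (blk x m (k + 1)) < idx δ ρ (blk x m k) ∧
      idx δ ρ (blk x m (k + 1)) < δ := by
    intro k
    induction k with
    | zero =>
      intro m
      rw [blk_succ, blk_zero, blk_zero]
      exact ⟨h1 _, h1 _⟩
    | succ k ih =>
      intro m
      obtain ⟨h3, h4⟩ := ih (m + 1)
      have h5 : idx δ ρ (blk x m (k + 1 + 1)) < idx δ ρ (blk x m (k + 1)) := by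
        rw [blk_succ x m (k + 1), blk_succ x m k]
        exact h2 _ _ _ h4 (hx m (k + 1)) h3
      exact ⟨h5, h5.trans (ih m).2⟩
  exact (RelEmbedding.not_wellFounded (RelEmbedding.natGT (r := (· < ·))
    (fun k => idx δ ρ (blk x 0 k)) fun k => (key k 0).1)) wellFounded_lt

end Pool.Agent.CQ
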