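import Mathlib
import Pool.Agent.Lib_helper68.OG16
import Pool.Agent.Lib_helper80.CQ.Pos2
import Pool.Agent.Lib_helper80.CQ.Sing

/-!
# CQ (MP_931ca8_lc): the reduction below a cardinal with reverse-free sequences
(after helper68's OG13 and OG16)
-/

set_option autoImplicit false
set_option linter.unusedSectionVars false
set_option linter.deprecated false

open Cardinal Ordinal Set

namespace Pool.Agent.CQ

open Pool.Agent.H68.OG

theorem rf_mono {κ κ' : Cardinal.{0}} (hκ : κ ≤ κ') (h : RF κ.ord.ToType) :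
    RF κ'.ord.ToType := by
  have h5 : #κ.ord.ToType ≤ #κ'.ord.ToType := by
    rw [Cardinal.mk_toType, Cardinal.mk_toType, Cardinal.card_ord, Cardinal.card_ord]
    exact hκ
  obtain ⟨i⟩ := (Cardinal.le_def _ _).1 h5
  exact RF.mono i i.injective h

/-- Free subsets of the right type, singular case. -/
theorem free_singular_rf {V : Type} [LinearOrder V] [WellFoundedLT V] [Nonempty V]
    {κ ν : Cardinal.{0}} (hν : ℵ₀ ≤ ν) (hνκ : ν < κ) (hRF : RF ν.ord.ToType)
    (hcof : κ.ord.cof < κ) (f : V → Finset V) {δ : Ordinal.{0}} (hδ : δ.card ≤ κ)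
    {A : Set V} (hA : TG A (κ.ord * δ)) :
    ∃ X : Set V, X ⊆ A ∧ (∀ x ∈ X, ∀ y ∈ X, x ≠ y → y ∉ f x) ∧ TG X (κ.ord * δ) := by
  classical
  have hκ0 : ℵ₀ ≤ κ := hν.trans hνκ.le
  rcases eq_or_ne δ 0 with rfl | hδ0
  · refine ⟨∅, Set.empty_subset A, fun x hx => absurd hx (Set.notMem_empty x), ?_⟩
    rw [mul_zero]
    exact tg_zero _
  have hNδ : Nonempty δ.ToType := Ordinal.nonempty_toType_iff.2 hδ0
  -- the cardinal `μ`
  have hmax : max κ.ord.cof ν < κ := max_lt hcof hνκ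
  have hsucc : Order.succ (max κ.ord.cof ν) < κ := by
    rcases (Order.succ_le_of_lt hmax).lt_or_eq with h | h
    · exact h
    · exfalso
      have hr := Cardinal.isRegular_succ (hν.trans (le_max_right κ.ord.cof ν))
      rw [h] at hr
      rw [hr.cof_eq] at hcof
      exact lt_irrefl _ hcof
  set μ := Order.succ (max κ.ord.cof ν) with hμdef
  have hμr : μ.IsRegular := Cardinal.isRegular_succ (hν.trans (le_max_right _ _))
  have hμ1 : ν ≤ μ := (le_max_right _ _).trans (Order.le_succ _)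
  have hμ2 : κ.ord.cof < μ := Order.lt_succ_of_le (le_max_left _ _)
  have hRFμ : RF μ.ord.ToType := rf_mono hμ1 hRF
  -- blocks
  obtain ⟨g, hg, hm⟩ := hA
  let e := (Ordinal.ToType.mk (o := δ)).symm
  have hbd : ∀ (i : δ.ToType) (x : Ordinal.{0}), x < κ.ord → κ.ord * (e i).1 + x < κ.ord * δ := by
    intro i x hx
    calc κ.ord * (e i).1 + x < κ.ord * (e i).1 + κ.ord := (add_lt_add_iff_left _).2 hx
      _ = κ.ord * Order.succ (e i).1 := (Ordinal.mul_succ _ _).symm
      _ ≤ κ.ord * δ := mul_le_mul_right (Order.succ_le_of_lt (show (e i).1 < δ from (e i).2)) _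
  let E : δ.ToType → Set V := fun i => {v | ∃ x < κ.ord, v = g (κ.ord * (e i).1 + x)}
  have hEA : ∀ i, E i ⊆ A := by
    rintro i _ ⟨x, hx, rfl⟩
    exact hg _ (hbd i x hx)
  have hEm : ∀ i j, i < j → ∀ x ∈ E i, ∀ y ∈ E j, x < y := by
    rintro i j hij _ ⟨x, hx, rfl⟩ _ ⟨y, hy, rfl⟩
    refine hm _ _ ?_ (hbd j y hy)
    calc κ.ord * (e i).1 + x < κ.ord * (e i).1 + κ.ord := (add_lt_add_iff_left _).2 hx
      _ = κ.ord * Order.succ (e i).1 := (Ordinal.mul_succ _ _).symm
      _ ≤ κ.ord * (e j).1 := mul_le_mul_right (Order.succ_le_of_lt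
          (show (e i).1 < (e j).1 from e.lt_iff_lt.2 hij)) _
      _ ≤ κ.ord * (e j).1 + y := le_self_add
  have hET : ∀ i, TG (E i) κ.ord := fun i =>
    ⟨fun x => g (κ.ord * (e i).1 + x), fun x hx => ⟨x, hx, rfl⟩, fun x y hxy hy =>
      hm _ _ ((add_lt_add_iff_left _).2 hxy) (hbd i y hy)⟩
  have hcardTG : ∀ S : Set V, TG S κ.ord ↔ κ ≤ #S := by
    intro S
    rw [tg_iff, Cardinal.ord_le]
    unfold typ
    rw [Ordinal.card_type]
  have hEd : ∀ i j, i ≠ j → ∀ v ∈ E i, v ∉ E j := by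
    intro i j hij v hv hv'
    rcases lt_or_gt_of_ne hij with h | h
    · exact lt_irrefl _ (hEm i j h v hv v hv')
    · exact lt_irrefl _ (hEm j i h v hv' v hv)
  have hδc : #δ.ToType ≤ κ := by
    rw [Cardinal.mk_toType]
    exact hδ
  obtain ⟨X, hXf, hXβ⟩ := singular_lemma' hμr hsucc hμ2 f hδc E
    (fun i => (hcardTG _).1 (hET i)) hEd
  obtain ⟨η, hη⟩ := part_countable hRFμ δ
    (fun i => {η : μ.ord.ToType | ¬ κ ≤ #(X η ∩ E i : Set V)}) hXβ
  refine ⟨X η ∩ A, Set.inter_subset_right, fun x hx y hy => hXf η x hx.1 y hy.1, ?_⟩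
  refine tg_of_blocks' hEm _ (tg_iff.2 hη.ge) ?_
  intro i hi
  have hi' : ¬ ¬ κ ≤ #(X η ∩ E i : Set V) := hi
  rw [not_not] at hi'
  refine ((hcardTG _).2 hi').mono ?_
  rintro v ⟨hv1, hv2⟩
  exact ⟨⟨hv1, hEA i hv2⟩, hv2⟩

/-- Free subsets of the right type, all cardinals. -/
theorem free_rf {V : Type} [LinearOrder V] [WellFoundedLT V] [Nonempty V]
    {κ ν : Cardinal.{0}} (hν : ℵ₀ ≤ ν) (hνκ : ν < κ) (hRF : RF ν.ord.ToType)
    (f : V → Finset V) {δ : Ordinal.{0}} (hδ : δ.card ≤ κ)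
    {A : Set V} (hA : TG A (κ.ord * δ)) :
    ∃ X : Set V, X ⊆ A ∧ (∀ x ∈ X, ∀ y ∈ X, x ≠ y → y ∉ f x) ∧ TG X (κ.ord * δ) := by
  have hκ0 : ℵ₀ ≤ κ := hν.trans hνκ.le
  rcases (Ordinal.cof_ord_le κ).lt_or_eq with h | h
  · exact free_singular_rf hν hνκ hRF h f hδ hA
  · have hκ : κ.IsRegular := ⟨hκ0, h.ge⟩
    exact free_of_part hκ (hν.trans_lt hνκ) hδ (part_of_rf (rf_mono hνκ.le hRF) δ) f hA

theorem pi_mul_rf {κ ν : Cardinal.{0}} (hν : ℵ₀ ≤ ν) (hνκ : ν < κ) (hRF : RF ν.ord.ToType)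
    (δ : Ordinal.{0}) (hδ : δ.card ≤ κ) : PI (κ.ord * δ) := by
  classical
  rcases eq_or_ne δ 0 with rfl | hδ0
  · rw [mul_zero]; exact pi_zero
  have hκ0 : ℵ₀ ≤ κ := hν.trans hνκ.le
  intro G
  by_cases hR : Ranked G Set.univ
  · right
    have hN : Nonempty (κ.ord * δ).ToType :=
      Ordinal.nonempty_toType_iff.2 (mul_ne_zero (zero_lt_one.trans (one_lt_ord' hκ0)).ne' hδ0)
    obtain ⟨out, hfin, hadj⟩ := hR.orient G
    obtain ⟨X, -, hXf, hXT⟩ := free_rf hν hνκ hRF
      (fun v => (hfin v (Set.mem_univ v)).toFinset) hδ (A := Set.univ)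
      (tg_iff.2 (typ_univ _).ge)
    refine ⟨X, ?_, typ_eq_of_tg hXT⟩
    intro x hx y hy hxy
    have hne : x ≠ y := hxy.ne
    rcases hadj x (Set.mem_univ x) y (Set.mem_univ y) hxy with h | h
    · exact hXf y hy x hx hne.symm (by simpa using h)
    · exact hXf x hx y hy hne (by simpa using h)
  · left
    exact exists_path G hR

theorem pi_ext_rf {κ ν : Cardinal.{0}} (hν : ℵ₀ ≤ ν) (hνκ : ν < κ) (hRF : RF ν.ord.ToType)
    (δ η : Ordinal.{0}) (hδ : δ.card ≤ κ) (hη : ω * η < κ.ord)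
    (hη0 : η ≠ 0) (h : PI (ω * η)) : PI (κ.ord * δ + ω * η) := by
  classical
  intro G
  by_cases hR : Ranked G Set.univ
  · right
    have hκ1 : ℵ₀ < κ := lt_of_le_of_lt hν hνκ
    have hκ0 : ℵ₀ ≤ κ := hκ1.le
    have hε0 : ω * η ≠ 0 := mul_ne_zero Ordinal.omega0_ne_zero hη0
    have hNε : Nonempty (ω * η).ToType := Ordinal.nonempty_toType_iff.2 hε0
    have hN : Nonempty (κ.ord * δ + ω * η).ToType := by
      refine Ordinal.nonempty_toType_iff.2 ?_
      intro h0
      have : ω * η ≤ κ.ord * δ + ω * η := le_add_self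
      rw [h0] at this
      exact hε0 (le_antisymm this zero_le)
    obtain ⟨out, hfin, -, hchain, hadj, hnopath⟩ := hR.tree G
    have htop : TG (Set.univ : Set (κ.ord * δ + ω * η).ToType) (κ.ord * δ + ω * η) :=
      tg_iff.2 (typ_univ _).ge
    obtain ⟨A₁, A₂, -, -, hA₁, hA₂, hlt12⟩ := htop.split
    obtain ⟨g₂, hg₂, hm₂⟩ := hA₂
    let e := (Ordinal.ToType.mk (o := ω * η)).symm
    have hmono : ∀ x y : (ω * η).ToType, x < y → g₂ (e x).1 < g₂ (e y).1 := fun x y hxy =>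
      hm₂ _ _ (e.lt_iff_lt.2 hxy) (e y).2
    have hinj : ∀ x y : (ω * η).ToType, g₂ (e x).1 = g₂ (e y).1 → x = y := by
      intro x y hxy
      rcases lt_trichotomy x y with h1 | h1 | h1
      · exact absurd hxy (hmono x y h1).ne
      · exact h1
      · exact absurd hxy (hmono y x h1).ne'
    let H : SimpleGraph (ω * η).ToType :=
      { Adj := fun x y => x ≠ y ∧
          (g₂ (e x).1 ∈ out (g₂ (e y).1) ∨ g₂ (e y).1 ∈ out (g₂ (e x).1))
        symm := ⟨fun x y hxy => ⟨hxy.1.symm, hxy.2.symm⟩⟩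
        loopless := ⟨fun x hx => hx.1 rfl⟩ }
    rcases h H with ⟨p, hp, hpadj⟩ | ⟨S', hS', hSt⟩
    · exfalso
      refine hnopath (fun n => g₂ (e (p n)).1) ?_ (fun n => Set.mem_univ _) fun n => (hpadj n).2
      intro n m hnm
      exact hp (hinj _ _ hnm)
    obtain ⟨g', hg', hm'⟩ := tg_of_le_typ (le_of_eq hSt.symm)
    set S : Set (κ.ord * δ + ω * η).ToType := {v | ∃ x ∈ S', v = g₂ (e x).1} with hSdef
    have hSA : S ⊆ A₂ := by
      rintro _ ⟨x, -, rfl⟩
      exact hg₂ _ (e x).2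
    have hST : TG S (ω * η) :=
      ⟨fun x => g₂ (e (g' x)).1, fun x hx => ⟨g' x, hg' x hx, rfl⟩,
        fun x y hxy hy => hmono _ _ (hm' x y hxy hy)⟩
    have hanti : ∀ x ∈ S, ∀ y ∈ S, x ≠ y → x ∉ out y := by
      rintro _ ⟨x, hx, rfl⟩ _ ⟨y, hy, rfl⟩ hne hout
      refine hS' x hx y hy ⟨?_, Or.inl hout⟩
      rintro rfl
      exact hne rfl
    have hScard : #S < κ := by
      have h1 : S ⊆ Set.range (fun x : (ω * η).ToType => g₂ (e x).1) := by
        rintro _ ⟨x, -, rfl⟩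
        exact ⟨x, rfl⟩
      refine lt_of_le_of_lt ((Cardinal.mk_le_mk_of_subset h1).trans Cardinal.mk_range_le) ?_
      rw [Cardinal.mk_toType]
      exact Cardinal.lt_ord.1 hη
    obtain ⟨T, hTS, hTT, hTd⟩ := hST.split_omega
    let D : ℕ → Set (κ.ord * δ + ω * η).ToType := fun r => {v | ∀ u ∈ out v, u ∉ T r}
    have hD : ∀ v ∈ A₁, ∀ r s, r ≠ s → v ∈ D r ∨ v ∈ D s := by
      intro v _ r s hrs
      by_contra hcon
      rw [not_or] at hcon
      simp only [D, Set.mem_ofPred_eq, not_forall, not_not] at hcon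
      obtain ⟨⟨x, hx, hxr⟩, ⟨y, hy, hys⟩⟩ := hcon
      have hne : x ≠ y := by
        rintro rfl
        exact hTd r s hrs x hxr hys
      rcases hchain v (Set.mem_univ v) x hx y hy with h1 | h1 | h1
      · exact hne h1
      · exact hanti x (hTS r hxr) y (hTS s hys) hne h1
      · exact hanti y (hTS s hys) x (hTS r hxr) hne.symm h1
    have hbad := fb_all (κ.ord * δ) _ A₁ D hA₁ hD
    obtain ⟨r, hr⟩ := hbad.infinite_compl.nonempty
    simp only [Set.mem_compl_iff, Set.mem_ofPred_eq, not_not] at hr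
    have hTc : #(T r) < κ := lt_of_le_of_lt (Cardinal.mk_le_mk_of_subset (hTS r)) hScard
    have hRc := mk_biUnion_finite_lt hκ1 (T r) hTc out fun v => hfin v (Set.mem_univ v)
    have hA₁' := TG.remove' hκ0 hRc δ _ hr
    obtain ⟨X, hXA, hXf, hXT⟩ := free_rf hν hνκ hRF
      (fun v => (hfin v (Set.mem_univ v)).toFinset) hδ hA₁'
    have hfree : ∀ x ∈ X, ∀ y ∈ X, x ≠ y → y ∉ out x := by
      intro x hx y hy hne hout
      exact hXf x hx y hy hne (by simpa using hout)
    refine ⟨X ∪ T r, ?_, ?_⟩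
    · have hXT' : ∀ x ∈ X, ∀ y ∈ T r, x ∉ out y ∧ y ∉ out x := by
        intro x hx y hy
        have h1 := hXA hx
        refine ⟨fun hout => h1.2 ?_, fun hout => h1.1.2 y hout hy⟩
        exact Set.mem_biUnion hy hout
      rintro x hx y hy hxy
      have hne : x ≠ y := hxy.ne
      have h1 := hadj x (Set.mem_univ x) y (Set.mem_univ y) hxy
      rcases hx with hx | hx <;> rcases hy with hy | hy
      · rcases h1 with h1 | h1
        · exact hfree y hy x hx hne.symm h1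
        · exact hfree x hx y hy hne h1
      · rcases h1 with h1 | h1
        · exact (hXT' x hx y hy).1 h1
        · exact (hXT' x hx y hy).2 h1
      · rcases h1 with h1 | h1
        · exact (hXT' y hy x hx).2 h1
        · exact (hXT' y hy x hx).1 h1
      · rcases h1 with h1 | h1
        · exact hanti x (hTS r hx) y (hTS r hy) hne h1
        · exact hanti y (hTS r hy) x (hTS r hx) hne.symm h1
    · refine typ_eq_of_tg (hXT.add (hTT r) ?_)
      intro x hx y hy
      exact hlt12 x (hXA hx).1.1 y (hSA (hTS r hy))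
  · left
    exact exists_path G hR

/-- The reduction modulo the successor of a cardinal with reverse-free sequences. -/
theorem pi_of_mod {μ : Cardinal.{0}} (hμ : ℵ₀ ≤ μ) (hRF : RF μ.ord.ToType) (α : Ordinal.{0}) :
    ω ∣ α → PI (α % (Order.succ μ).ord) → PI α := by
  induction α using WellFoundedLT.induction with
  | ind α IH =>
    intro hdvd hP
    by_cases hc : α.card ≤ μ
    · have hαlt : α < (Order.succ μ).ord := by
        rw [Cardinal.lt_ord]
        exact Order.lt_succ_of_le hc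
      rwa [Ordinal.mod_eq_of_lt hαlt] at hP
    · rw [not_le] at hc
      set κ := α.card with hκ
      have hκ00 : ℵ₀ ≤ κ := hμ.trans hc.le
      have hκα : κ.ord ≤ α := Cardinal.ord_le.2 le_rfl
      have hκ0 : κ.ord ≠ 0 := (zero_lt_one.trans (one_lt_ord' hκ00)).ne'
      have hdm := Ordinal.div_add_mod α κ.ord
      have hεκ : α % κ.ord < κ.ord := Ordinal.mod_lt α hκ0
      have hωκ : ω ∣ κ.ord := by
        have := ord_dvd_ord le_rfl hκ00
        rwa [Cardinal.ord_aleph0] at this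
      have hωε : ω ∣ α % κ.ord := by
        rw [← hdm] at hdvd
        exact (Ordinal.dvd_add_iff (Dvd.dvd.mul_right hωκ _)).1 hdvd
      have hδ : (α / κ.ord).card ≤ κ := by
        rw [hκ]
        refine Ordinal.card_le_card ?_
        have h5 : 1 * (α / κ.ord) ≤ κ.ord * (α / κ.ord) :=
          mul_le_mul_left (one_lt_ord' hκ00).le _
        rw [one_mul] at h5
        exact h5.trans (Ordinal.mul_div_le _ _)
      rcases eq_or_ne (α % κ.ord) 0 with h0 | h0
      · rw [h0, add_zero] at hdm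
        rw [← hdm]
        exact pi_mul_rf hμ hc hRF _ hδ
      · obtain ⟨η, hη⟩ := hωε
        have hη0 : η ≠ 0 := by
          rintro rfl
          exact h0 (by rw [hη, mul_zero])
        have h6 : PI (α % κ.ord) := by
          refine IH _ (hεκ.trans_le hκα) ⟨η, hη⟩ ?_
          obtain ⟨c, hc'⟩ := ord_dvd_ord (μ := Order.succ μ) (κ := κ)
            (hμ.trans (Order.le_succ μ)) (Order.succ_le_of_lt hc)
          have h5 : α % (Order.succ μ).ord = (α % κ.ord) % (Order.succ μ).ord := by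
            conv_lhs => rw [← hdm]
            rw [hc', mul_assoc, Ordinal.mul_add_mod_self]
          rw [← h5]
          exact hP
        rw [← hdm, hη]
        rw [hη] at h6 hεκ
        exact pi_ext_rf hμ hc hRF _ η hδ hεκ hη0 h6

theorem pi_mod {α β : Ordinal.{0}} (h : PI α) : PI (α % β) := by
  refine pi_tail (a := β * (α / β)) ?_
  rw [Ordinal.div_add_mod]
  exact h

/-- The reduction modulo a regular cardinal with reverse-free sequences. -/
theorem pi_of_mod' {μ : Cardinal.{0}} (hμ : μ.IsRegular) (hμ0 : ℵ₀ < μ) (hRF : RF μ.ord.ToType)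
    (α : Ordinal.{0}) (hd : ω ∣ α) (hP : PI (α % μ.ord)) : PI α := by
  have hs0 : (Order.succ μ).ord ≠ 0 :=
    (zero_lt_one.trans (one_lt_ord' (hμ.1.trans (Order.le_succ μ)))).ne'
  have hμo : μ.ord ≠ 0 := (zero_lt_one.trans (one_lt_ord' hμ.1)).ne'
  refine pi_of_mod hμ.1 hRF α hd ?_
  have hβ : α % (Order.succ μ).ord < (Order.succ μ).ord := Ordinal.mod_lt α hs0
  have hω : ∀ κ : Cardinal.{0}, ℵ₀ ≤ κ → ω ∣ κ.ord := by
    intro κ hκ
    have := ord_dvd_ord le_rfl hκ
    rwa [Cardinal.ord_aleph0] at this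
  have hdβ : ω ∣ α % (Order.succ μ).ord := by
    rw [← Ordinal.div_add_mod α (Order.succ μ).ord] at hd
    exact (Ordinal.dvd_add_iff (Dvd.dvd.mul_right (hω _ (hμ.1.trans (Order.le_succ μ))) _)).1 hd
  obtain ⟨c, hc⟩ := ord_dvd_ord (μ := μ) (κ := Order.succ μ) hμ.1 (Order.le_succ μ)
  have h5 : α % μ.ord = (α % (Order.succ μ).ord) % μ.ord := by
    conv_lhs => rw [← Ordinal.div_add_mod α (Order.succ μ).ord]
    rw [hc, mul_assoc, Ordinal.mul_add_mod_self]
  rw [h5] at hP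
  set β := α % (Order.succ μ).ord with hβdef
  have hdm := Ordinal.div_add_mod β μ.ord
  have hdε : ω ∣ β % μ.ord := by
    rw [← hdm] at hdβ
    exact (Ordinal.dvd_add_iff (Dvd.dvd.mul_right (hω _ hμ.1) _)).1 hdβ
  have hδ : (β / μ.ord).card ≤ μ := by
    have h6 : β / μ.ord ≤ β := by
      have h5 : 1 * (β / μ.ord) ≤ μ.ord * (β / μ.ord) :=
        mul_le_mul_left (one_lt_ord' hμ.1).le _
      rw [one_mul] at h5
      exact h5.trans (Ordinal.mul_div_le _ _)
    refine (Ordinal.card_le_card h6).trans ?_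
    rw [Cardinal.lt_ord] at hβ
    exact Order.lt_succ_iff.1 hβ
  rw [← hdm]
  exact (pi_iff_of_part hμ hμ0 _ _ hδ (part_of_rf hRF _) (Ordinal.mod_lt β hμo) hdε).2 hP

end Pool.Agent.CQ
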