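import Mathlib
import Pool.Agent.Lib_helper68.OG16
import Pool.Agent.Lib_helper80.CQ.Neg2
import Pool.Agent.Lib_helper80.CQ.Sing2

/-!
# CQ (MP_931ca8_lc): the criterion at all levels (after helper68's `pi_level`)
-/

set_option autoImplicit false
set_option linter.unusedSectionVars false
set_option linter.deprecated false

open Cardinal Ordinal Set

namespace Pool.Agent.CQ

open Pool.Agent.H68.OG

theorem part_zero {κ : Cardinal.{0}} (hκ : ℵ₀ ≤ κ) : Part κ 0 := by
  intro F
  have hN : Nonempty κ.ord.ToType := by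
    rw [← Cardinal.mk_ne_zero_iff, Cardinal.mk_toType, Cardinal.card_ord]
    exact (aleph0_pos.trans_le hκ).ne'
  exact ⟨hN.some, le_antisymm (typ_le _ _) zero_le⟩

/-- sufficient: the omission property at all regular levels, nothing at the singular ones -/
theorem pi_levels (α : Ordinal.{0}) : ω ∣ α →
    (∀ κ : Cardinal.{0}, ℵ₀ < κ → ¬ κ.IsRegular → α % (Order.succ κ).ord < κ.ord) →
    (∀ κ : Cardinal.{0}, κ.IsRegular → ℵ₀ < κ → Part κ (α % (Order.succ κ).ord / κ.ord)) →
    PI α := by
  induction α using WellFoundedLT.induction with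
  | ind α IH =>
    intro hdvd hs hr
    by_cases hc : α.card ≤ ℵ₀
    · exact pi_countable hdvd hc
    · rw [not_le] at hc
      set κ := α.card with hκ
      have hαlt : α < (Order.succ κ).ord := by
        rw [Cardinal.lt_ord]
        exact Order.lt_succ κ
      have hκα : κ.ord ≤ α := Cardinal.ord_le.2 le_rfl
      have hκ0 : κ.ord ≠ 0 := (zero_lt_one.trans (one_lt_ord' hc.le)).ne'
      have hreg : κ.IsRegular := by
        by_contra hcon
        have h1 := hs κ hc hcon
        rw [Ordinal.mod_eq_of_lt hαlt] at h1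
        exact absurd h1 (not_lt.2 hκα)
      have hP := hr κ hreg hc
      rw [Ordinal.mod_eq_of_lt hαlt] at hP
      have hdm := Ordinal.div_add_mod α κ.ord
      have hεκ : α % κ.ord < κ.ord := Ordinal.mod_lt α hκ0
      have hωκ : ω ∣ κ.ord := by
        have := ord_dvd_ord le_rfl hc.le
        rwa [Cardinal.ord_aleph0] at this
      have hωε : ω ∣ α % κ.ord := by
        rw [← hdm] at hdvd
        exact (Ordinal.dvd_add_iff (Dvd.dvd.mul_right hωκ _)).1 hdvd
      have hδ : (α / κ.ord).card ≤ κ := by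
        have h5 : 1 * (α / κ.ord) ≤ κ.ord * (α / κ.ord) :=
          mul_le_mul_left (one_lt_ord' hc.le).le _
        rw [one_mul] at h5
        exact Ordinal.card_le_card (h5.trans (Ordinal.mul_div_le _ _))
      rw [← hdm]
      refine (pi_iff_of_part hreg hc _ _ hδ hP hεκ hωε).2 ?_
      have hmod : ∀ κ' : Cardinal.{0}, ℵ₀ ≤ κ' → κ' < κ →
          α % (Order.succ κ').ord = (α % κ.ord) % (Order.succ κ').ord := by
        intro κ' h0 hlt
        obtain ⟨c, hc'⟩ := ord_dvd_ord (μ := Order.succ κ') (κ := κ)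
          (h0.trans (Order.le_succ κ')) (Order.succ_le_of_lt hlt)
        conv_lhs => rw [← hdm]
        rw [hc', mul_assoc, Ordinal.mul_add_mod_self]
      have hbig : ∀ κ' : Cardinal.{0}, κ ≤ κ' →
          (α % κ.ord) % (Order.succ κ').ord < κ'.ord := fun κ' hle =>
        (Ordinal.mod_le _ _).trans_lt (hεκ.trans_le (Cardinal.ord_le_ord.2 hle))
      refine IH _ (hεκ.trans_le hκα) hωε ?_ ?_
      · intro κ' h0 hn
        rcases lt_or_ge κ' κ with h | h
        · rw [← hmod κ' h0.le h]
          exact hs κ' h0 hn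
        · exact hbig κ' h
      · intro κ' hr' h0
        rcases lt_or_ge κ' κ with h | h
        · rw [← hmod κ' h0.le h]
          exact hr κ' hr' h0
        · rw [Ordinal.div_eq_zero_of_lt (hbig κ' h)]
          exact part_zero hr'.1

/-- necessary -/
theorem part_of_pi {κ : Cardinal.{0}} (hκ : κ.IsRegular) (hκ0 : ℵ₀ < κ)
    (hc : ∀ μ < κ, (2 : Cardinal.{0}) ^ μ ≤ κ) {α : Ordinal.{0}} (hP : PI α) :
    Part κ (α % (Order.succ κ).ord / κ.ord) := by
  by_contra hcon
  have hko : κ.ord ≠ 0 := (zero_lt_one.trans (one_lt_ord' hκ.1)).ne'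
  have hs0 : (Order.succ κ).ord ≠ 0 :=
    (zero_lt_one.trans (one_lt_ord' (hκ.1.trans (Order.le_succ κ)))).ne'
  set β := α % (Order.succ κ).ord with hβ
  have hβlt : β < (Order.succ κ).ord := Ordinal.mod_lt α hs0
  have hδ : (β / κ.ord).card ≤ κ := by
    have h6 : β / κ.ord ≤ β := by
      have h5 : 1 * (β / κ.ord) ≤ κ.ord * (β / κ.ord) :=
        mul_le_mul_left (one_lt_ord' hκ.1).le _
      rw [one_mul] at h5
      exact h5.trans (Ordinal.mul_div_le _ _)
    refine (Ordinal.card_le_card h6).trans ?_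
    rw [Cardinal.lt_ord] at hβlt
    exact Order.lt_succ_iff.1 hβlt
  refine not_pi hκ hκ0 hc (β / κ.ord) (β % κ.ord) hδ hcon (Ordinal.mod_lt β hko) ?_
  rw [Ordinal.div_add_mod]
  exact pi_mod hP

end Pool.Agent.CQ
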