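import Mathlib
import Pool.Agent.Lib_helper80.CQ.RFP

/-!
# CQ (MP_931ca8_lc): without reverse-free sequences the omission property fails
-/

set_option autoImplicit false
set_option linter.unusedSectionVars false
set_option linter.deprecated false

open Cardinal Ordinal Set

namespace Pool.Agent.CQ

open Pool.Agent.H68.OG

/-- type at most `b` for sets of ordinals -/
def TLe (A : Set Ordinal.{0}) (b : Ordinal.{0}) : Prop :=
  ∃ φ : Ordinal.{0} → Ordinal.{0}, (∀ x ∈ A, φ x < b) ∧ ∀ x ∈ A, ∀ y ∈ A, x < y → φ x < φ y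

theorem TLe.mono {A A' : Set Ordinal.{0}} {b b' : Ordinal.{0}} (h : TLe A b) (hA : A' ⊆ A)
    (hb : b ≤ b') : TLe A' b' := by
  obtain ⟨φ, h1, h2⟩ := h
  exact ⟨φ, fun x hx => (h1 x (hA hx)).trans_le hb, fun x hx y hy => h2 x (hA hx) y (hA hy)⟩

theorem TLe.sum {A : Set Ordinal.{0}} {b c : Ordinal.{0}} (j : Ordinal.{0} → Ordinal.{0})
    (h1 : ∀ x ∈ A, j x < c) (h2 : ∀ x ∈ A, ∀ y ∈ A, x < y → j x ≤ j y)
    (h3 : ∀ i, TLe {x | x ∈ A ∧ j x = i} b) : TLe A (b * c) := by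
  classical
  choose φ hφ1 hφ2 using h3
  refine ⟨fun x => b * j x + φ (j x) x, ?_, ?_⟩
  · intro x hx
    calc b * j x + φ (j x) x < b * j x + b := (add_lt_add_iff_left _).2 (hφ1 _ x ⟨hx, rfl⟩)
      _ = b * Order.succ (j x) := (Ordinal.mul_succ _ _).symm
      _ ≤ b * c := mul_le_mul_right (Order.succ_le_of_lt (h1 x hx)) b
  · intro x hx y hy hxy
    rcases (h2 x hx y hy hxy).eq_or_lt with h | h
    · show b * j x + φ (j x) x < b * j y + φ (j y) y
      rw [← h]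
      exact (add_lt_add_iff_left _).2 (hφ2 _ x ⟨hx, rfl⟩ y ⟨hy, h.symm⟩ hxy)
    · calc b * j x + φ (j x) x < b * j x + b := (add_lt_add_iff_left _).2 (hφ1 _ x ⟨hx, rfl⟩)
        _ = b * Order.succ (j x) := (Ordinal.mul_succ _ _).symm
        _ ≤ b * j y := mul_le_mul_right (Order.succ_le_of_lt h) b
        _ ≤ _ := le_self_add

section Tree

variable {Λ : Type} (E : List Λ → Finset Λ)

open Classical in
/-- the monotone hull of `E` -/
noncomputable def Rt (s : List Λ) : Finset Λ := s.inits.toFinset.biUnion E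

theorem mem_rt {s : List Λ} {ν : Λ} : ν ∈ Rt E s ↔ ∃ p, p <+: s ∧ ν ∈ E p := by
  classical
  unfold Rt
  rw [Finset.mem_biUnion]
  constructor
  · rintro ⟨p, hp, h⟩
    rw [List.mem_toFinset, List.mem_inits] at hp
    exact ⟨p, hp, h⟩
  · rintro ⟨p, hp, h⟩
    exact ⟨p, by rw [List.mem_toFinset, List.mem_inits]; exact hp, h⟩

theorem rt_append (s t : List Λ) : Rt E s ⊆ Rt E (s ++ t) := by
  intro ν hν
  rw [mem_rt] at hν ⊢
  obtain ⟨p, hp, h⟩ := hν
  exact ⟨p, hp.trans (List.prefix_append s t), h⟩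

/-- good sequences -/
def Gd : List Λ → Prop
  | [] => True
  | x :: s => x ∉ Rt E s ∧ Gd s

theorem Gd.pre {s t : List Λ} (h : Gd E (s ++ t)) : Gd E s := by
  induction s with
  | nil => trivial
  | cons x s ih =>
    rw [List.cons_append] at h
    exact ⟨fun hx => h.1 (rt_append E s t hx), ih h.2⟩

theorem Gd.suffix {s t : List Λ} (h : Gd E (s ++ t)) : Gd E t := by
  induction s with
  | nil => exact h
  | cons x s ih =>
    rw [List.cons_append] at h
    exact ih h.2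

/-- one-point extensions -/
def Rel (t s : List Λ) : Prop := Gd E t ∧ ∃ y, t = s ++ [y]

theorem rel_wf (hE : ¬ ∃ x : ℕ → Λ, ∀ m k, x m ∉ E (blk x (m + 1) k)) :
    IsWellFounded (List Λ) (Rel E) := by
  refine ⟨wellFounded_iff_isEmpty_descending_chain.2 ⟨?_⟩⟩
  rintro ⟨f, hf⟩
  choose hf1 x hx using hf
  refine hE ⟨x, fun m k => ?_⟩
  have h1 : ∀ k m, f (m + k) = f m ++ blk x m k := by
    intro k
    induction k with
    | zero => intro m; rw [blk_zero, List.append_nil, Nat.add_zero]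
    | succ k ih =>
      intro m
      rw [← Nat.add_assoc, hx (m + k), ih m, blk_succ', List.append_assoc]
  have h2 : Gd E (f (m + (k + 1))) := hf1 (m + k)
  rw [h1 (k + 1) m] at h2
  have h3 := h2.suffix
  rw [blk_succ] at h3
  intro hmem
  exact h3.1 ((mem_rt E).2 ⟨_, List.prefix_rfl, hmem⟩)

variable [hw : IsWellFounded (List Λ) (Rel E)]

/-- the rank of a sequence -/
noncomputable def rk (s : List Λ) : Ordinal.{0} := IsWellFounded.rank (Rel E) s

theorem rk_lt {s : List Λ} {y : Λ} (h : Gd E (s ++ [y])) : rk E (s ++ [y]) < rk E s :=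
  IsWellFounded.rank_lt_of_rel ⟨h, y, rfl⟩

theorem exists_of_lt_rk {s : List Λ} {o : Ordinal.{0}} (h : o < rk E s) :
    ∃ y, Gd E (s ++ [y]) ∧ o ≤ rk E (s ++ [y]) := by
  unfold rk at h
  rw [IsWellFounded.rank_eq, Ordinal.lt_iSup_iff] at h
  obtain ⟨⟨t, ht, y, rfl⟩, h⟩ := h
  exact ⟨y, ht, Order.lt_succ_iff.1 h⟩

theorem card_rk {κ : Cardinal.{0}} (hκ : ℵ₀ ≤ κ) (hΛ : #Λ = κ) (s : List Λ) :
    (rk E s).card ≤ κ := by
  have h1 : ∀ i : (rk E s).ToType, ∃ t : List Λ,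
      IsWellFounded.rank (Rel E) t = (Ordinal.ToType.mk.symm i).1 := fun i =>
    IsWellFounded.mem_range_rank_of_le (show (Ordinal.ToType.mk.symm i).1 ≤
      IsWellFounded.rank (Rel E) s from (Ordinal.ToType.mk.symm i).2.le)
  choose g hg using h1
  have hinj : Function.Injective g := by
    intro a b hab
    have h2 : (Ordinal.ToType.mk.symm a).1 = (Ordinal.ToType.mk.symm b).1 := by
      rw [← hg a, ← hg b, hab]
    exact Ordinal.ToType.mk.symm.injective (Subtype.ext h2)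
  have h2 := Cardinal.mk_le_of_injective hinj
  rw [Cardinal.mk_toType] at h2
  refine h2.trans ?_
  have : Infinite Λ := by
    rw [Cardinal.infinite_iff, hΛ]
    exact hκ
  rw [Cardinal.mk_list_eq_mk, hΛ]

/-- the assignment attached to a sequence -/
def Cl (k : Ordinal.{0}) (s : List Λ) : Prop :=
  ∃ F : Ordinal.{0} → Finset Λ, (∀ x, Rt E s ⊆ F x) ∧
    ∀ ν ∉ Rt E s, TLe {x | x < k ^ rk E s ∧ ν ∉ F x} (k ^ (rk E (ν :: s) + 1))

theorem cl_step {k : Ordinal.{0}} (hk : 1 < k) (s : List Λ)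
    (IH : ∀ y, Gd E (s ++ [y]) → Cl E k (s ++ [y]))
    (y : Ordinal.{0} → Λ) (hy : ∀ i, Gd E (s ++ [y i]))
    (j p : Ordinal.{0} → Ordinal.{0}) (hj : ∀ x < k ^ rk E s, j x < k)
    (hj2 : ∀ x x', x < x' → x' < k ^ rk E s → j x ≤ j x')
    (hp : ∀ x < k ^ rk E s, p x < k ^ rk E (s ++ [y (j x)]))
    (hp2 : ∀ x x', x < x' → x' < k ^ rk E s → j x = j x' → p x < p x') : Cl E k s := by
  classical
  choose F hF1 hF2 using fun i => IH (y i) (hy i)
  refine ⟨fun x => F (j x) (p x), fun x => (rt_append E s _).trans (hF1 _ _), ?_⟩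
  intro ν hν
  have e : k ^ (rk E (ν :: s) + 1) = k ^ rk E (ν :: s) * k := by
    rw [← Order.succ_eq_add_one, Ordinal.opow_succ]
  rw [e]
  refine TLe.sum j (fun x hx => hj x hx.1) (fun x _ x' hx' hlt => hj2 x x' hlt hx'.1) ?_
  intro i
  by_cases hνi : ν ∈ Rt E (s ++ [y i])
  · refine ⟨fun _ => 0, ?_, ?_⟩
    · rintro x ⟨⟨-, hx2⟩, hx3⟩
      refine absurd (hF1 (j x) (p x) ?_) hx2
      rw [hx3]
      exact hνi
    · rintro x ⟨⟨-, hx2⟩, hx3⟩
      refine absurd (hF1 (j x) (p x) ?_) hx2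
      rw [hx3]
      exact hνi
  · obtain ⟨φ, h1, h2⟩ := hF2 i ν hνi
    have hG : Gd E ((ν :: s) ++ [y i]) := ⟨hνi, hy i⟩
    have h3 := rk_lt E hG
    refine ⟨fun x => φ (p x), ?_, ?_⟩
    · rintro x ⟨⟨hx1, hx2⟩, hx3⟩
      refine lt_of_lt_of_le (h1 (p x) ⟨?_, ?_⟩) ?_
      · have := hp x hx1
        rwa [hx3] at this
      · have hx2' : ν ∉ F (j x) (p x) := hx2
        rwa [hx3] at hx2'
      · refine Ordinal.opow_le_opow_right (zero_lt_one.trans hk) ?_
        rw [← Order.succ_eq_add_one]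
        exact Order.succ_le_of_lt h3
    · rintro x ⟨⟨hx1, hx2⟩, hx3⟩ x' ⟨⟨hx1', hx2'⟩, hx3'⟩ hlt
      refine h2 (p x) ⟨?_, ?_⟩ (p x') ⟨?_, ?_⟩ (hp2 x x' hlt hx1' (hx3.trans hx3'.symm))
      · have := hp x hx1
        rwa [hx3] at this
      · have hx2' : ν ∉ F (j x) (p x) := hx2
        rwa [hx3] at hx2'
      · have := hp x' hx1'
        rwa [hx3'] at this
      · have hx2'' : ν ∉ F (j x') (p x') := hx2'
        rwa [hx3'] at hx2''

theorem cl_all {κ : Cardinal.{0}} (hκ : ℵ₀ ≤ κ) (hΛ : #Λ = κ) (s : List Λ) (hs : Gd E s) :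
    Cl E κ.ord s := by
  classical
  have hk : 1 < κ.ord := one_lt_ord' hκ
  have hk0 : κ.ord ≠ 0 := (zero_lt_one.trans hk).ne'
  have hΩ : #κ.ord.ToType = κ := by rw [Cardinal.mk_toType, Cardinal.card_ord]
  induction s using (hw.wf).induction with
  | _ s IH =>
  have IH' : ∀ y, Gd E (s ++ [y]) → Cl E κ.ord (s ++ [y]) := fun y hy => IH _ ⟨hy, y, rfl⟩ hy
  rcases Ordinal.zero_or_succ_or_isSuccLimit (rk E s) with h0 | ⟨σ, hσ⟩ | hl
  · refine ⟨fun _ => Rt E s, fun _ => Finset.Subset.refl _, fun ν _ => ⟨fun _ => 0, ?_, ?_⟩⟩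
    · intro x _
      exact Ordinal.opow_pos _ (zero_lt_one.trans hk)
    · rintro x ⟨hx, -⟩ y ⟨hy, -⟩ hxy
      rw [h0, Ordinal.opow_zero, Order.lt_one_iff] at hy
      rw [hy] at hxy
      exact absurd hxy (not_lt.2 zero_le)
  · obtain ⟨y, hy1, hy2⟩ := exists_of_lt_rk E (s := s) (o := σ) (by
      rw [← hσ]
      exact Order.lt_succ σ)
    have hb : κ.ord ^ σ ≠ 0 := (Ordinal.opow_pos σ (zero_lt_one.trans hk)).ne'
    refine cl_step E hk s IH' (fun _ => y) (fun _ => hy1) (fun x => x / κ.ord ^ σ)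
      (fun x => x % κ.ord ^ σ) ?_ ?_ ?_ ?_
    · intro x hx
      rw [← hσ, Ordinal.opow_succ] at hx
      exact (Ordinal.lt_mul_iff_div_lt hb).1 hx
    · intro x x' hlt _
      exact (Ordinal.le_div hb).2 ((Ordinal.mul_div_le _ _).trans hlt.le)
    · intro x _
      exact (Ordinal.mod_lt x hb).trans_le
        (Ordinal.opow_le_opow_right (zero_lt_one.trans hk) hy2)
    · intro x x' hlt _ hd
      have h4 : κ.ord ^ σ * (x / κ.ord ^ σ) + x % κ.ord ^ σ <
          κ.ord ^ σ * (x' / κ.ord ^ σ) + x' % κ.ord ^ σ := by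
        rw [Ordinal.div_add_mod, Ordinal.div_add_mod]
        exact hlt
      have hd' : x / κ.ord ^ σ = x' / κ.ord ^ σ := hd
      rw [hd'] at h4
      exact (add_lt_add_iff_left _).1 h4
  · -- an enumeration of the exponents
    have hρ0 : 0 < rk E s := hl.bot_lt
    have hg : ∃ g : Ordinal.{0} → Ordinal.{0}, (∀ i, g i < rk E s) ∧
        ∀ σ < rk E s, ∃ i < κ.ord, g i = σ := by
      have h1 : #(rk E s).ToType ≤ #κ.ord.ToType := by
        rw [Cardinal.mk_toType, hΩ]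
        exact card_rk E hκ hΛ s
      obtain ⟨ι⟩ := (Cardinal.le_def _ _).1 h1
      have hN : Nonempty (rk E s).ToType := Ordinal.nonempty_toType_iff.2 hρ0.ne'
      refine ⟨fun i => if hi : i < κ.ord then
        (Ordinal.ToType.mk.symm (Function.invFun ι (Ordinal.ToType.mk ⟨i, hi⟩))).1 else 0, ?_, ?_⟩
      · intro i
        by_cases hi : i < κ.ord
        · simp only [hi, dif_pos]
          exact (Ordinal.ToType.mk.symm _).2
        · simp only [hi, dif_neg, not_false_eq_true]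
          exact hρ0
      · intro σ hσ
        refine ⟨(Ordinal.ToType.mk.symm (ι (Ordinal.ToType.mk ⟨σ, hσ⟩))).1,
          (Ordinal.ToType.mk.symm (ι (Ordinal.ToType.mk ⟨σ, hσ⟩))).2, ?_⟩
        have hi : (Ordinal.ToType.mk.symm (ι (Ordinal.ToType.mk ⟨σ, hσ⟩))).1 < κ.ord :=
          (Ordinal.ToType.mk.symm (ι (Ordinal.ToType.mk ⟨σ, hσ⟩))).2
        simp only [hi, dif_pos]
        have h2 : (Ordinal.ToType.mk ⟨(Ordinal.ToType.mk.symm (ι (Ordinal.ToType.mk ⟨σ, hσ⟩))).1,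
            hi⟩ : κ.ord.ToType) = ι (Ordinal.ToType.mk ⟨σ, hσ⟩) :=
          OrderIso.apply_symm_apply (Ordinal.ToType.mk (o := κ.ord))
            (ι (Ordinal.ToType.mk ⟨σ, hσ⟩))
        rw [h2, Function.leftInverse_invFun ι.injective]
        exact congrArg Subtype.val (OrderIso.symm_apply_apply
          (Ordinal.ToType.mk (o := rk E s)) ⟨σ, hσ⟩)
    obtain ⟨g, hg1, hg2⟩ := hg
    choose y hy1 hy2 using fun i => exists_of_lt_rk E (hg1 i)
    have hne : ∀ x < κ.ord ^ rk E s, {i | i < κ.ord ∧ x < κ.ord ^ g i}.Nonempty := by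
      intro x hx
      obtain ⟨σ, hσ, hxσ⟩ := (Ordinal.lt_opow_of_isSuccLimit hk0 hl).1 hx
      obtain ⟨i, hi, hiσ⟩ := hg2 σ hσ
      exact ⟨i, hi, by rw [hiσ]; exact hxσ⟩
    refine cl_step E hk s IH' y hy1 (fun x => sInf {i | i < κ.ord ∧ x < κ.ord ^ g i})
      (fun x => x) ?_ ?_ ?_ ?_
    · intro x hx
      exact (csInf_mem (hne x hx)).1
    · intro x x' hlt hx'
      refine csInf_le' ?_
      have h3 := csInf_mem (hne x' hx')
      exact ⟨h3.1, hlt.trans h3.2⟩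
    · intro x hx
      refine (csInf_mem (hne x hx)).2.trans_le ?_
      exact Ordinal.opow_le_opow_right (zero_lt_one.trans hk) (hy2 _)
    · intro x x' hlt _ _
      exact hlt

theorem exists_limit [Infinite Λ] : ∃ s, Gd E s ∧ Order.IsSuccLimit (rk E s) ∧
    ∀ ν ∉ Rt E s, rk E (ν :: s) < rk E s := by
  classical
  have key : ∀ ρ : Ordinal.{0}, ∀ s, Gd E s → rk E s = ρ → (∀ ν ∉ Rt E s, rk E (ν :: s) < rk E s) →
      ∃ s, Gd E s ∧ Order.IsSuccLimit (rk E s) ∧ ∀ ν ∉ Rt E s, rk E (ν :: s) < rk E s := by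
    intro ρ
    induction ρ using WellFoundedLT.induction with
    | ind ρ IH =>
      intro s hs hρ h
      rcases Ordinal.zero_or_succ_or_isSuccLimit (rk E s) with h0 | ⟨σ, hσ⟩ | hl
      · obtain ⟨ν, hν⟩ := Infinite.exists_notMem_finset (Rt E s)
        have := h ν hν
        rw [h0] at this
        exact absurd this (not_lt.2 zero_le)
      · obtain ⟨y, hy1, hy2⟩ := exists_of_lt_rk E (s := s) (o := σ) (by
          rw [← hσ]
          exact Order.lt_succ σ)
        have hy3 := rk_lt E hy1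
        refine IH (rk E (s ++ [y])) (by rw [← hρ]; exact hy3) (s ++ [y]) hy1 rfl ?_
        intro ν hν
        have hG : Gd E ((ν :: s) ++ [y]) := ⟨hν, hy1⟩
        have h3 := rk_lt E hG
        have h4 := h ν fun h5 => hν (rt_append E s _ h5)
        rw [← hσ, Order.lt_succ_iff] at h4
        exact (h3.trans_le h4).trans_le hy2
      · exact ⟨s, hs, hl, h⟩
  refine key _ [] trivial rfl ?_
  intro ν hν
  exact rk_lt E (s := []) (y := ν) ⟨hν, trivial⟩

end Tree

/-- small type from `TLe` -/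
theorem type_ne {δ b : Ordinal.{0}} (hδ : δ ≠ 0) (hb : b < δ) (P : Ordinal.{0} → Prop)
    (h : TLe {x | x < δ ∧ P x} b) :
    Ordinal.type (fun x y : {i : δ.ToType | P (Ordinal.ToType.mk.symm i).1} => x < y) ≠ δ := by
  intro hcon
  have : Nonempty δ.ToType := Ordinal.nonempty_toType_iff.2 hδ
  have h1 : TG {i : δ.ToType | P (Ordinal.ToType.mk.symm i).1} δ :=
    tg_of_le_typ (le_of_eq hcon.symm)
  obtain ⟨f, hf1, hf2⟩ := h1
  obtain ⟨φ, hφ1, hφ2⟩ := h
  let e := (Ordinal.ToType.mk (o := δ)).symm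
  have hmem : ∀ x < δ, (e (f x)).1 ∈ {x | x < δ ∧ P x} := fun x hx => ⟨(e (f x)).2, hf1 x hx⟩
  have hge : ∀ x, x < δ → x ≤ φ (e (f x)).1 := by
    intro x
    induction x using WellFoundedLT.induction with
    | ind x IH =>
      intro hx
      refine le_of_forall_lt ?_
      intro c hc
      refine lt_of_le_of_lt (IH c hc (hc.trans hx)) ?_
      exact hφ2 _ (hmem c (hc.trans hx)) _ (hmem x hx) (e.lt_iff_lt.2 (hf2 c x hc hx))
  exact absurd (hge b hb) (not_le.2 (hφ1 _ (hmem b hb)))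

/-- without reverse-free sequences the omission property fails somewhere -/
theorem not_part_of_not_rf {κ : Cardinal.{0}} (hκ : ℵ₀ ≤ κ) (h : ¬ RF κ.ord.ToType) :
    ∃ δ : Ordinal.{0}, δ.card ≤ κ ∧ ¬ Part κ δ := by
  classical
  unfold RF at h
  push Not at h
  obtain ⟨E, hE⟩ := h
  have hΛ : #κ.ord.ToType = κ := by rw [Cardinal.mk_toType, Cardinal.card_ord]
  have hInf : Infinite κ.ord.ToType := by
    rw [Cardinal.infinite_iff, hΛ]
    exact hκ
  have hk : 1 < κ.ord := one_lt_ord' hκ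
  have : IsWellFounded (List κ.ord.ToType) (Rel E) := rel_wf E (by
    rintro ⟨x, hx⟩
    obtain ⟨m, k, h⟩ := hE x
    exact hx m k h)
  obtain ⟨s, hs, hl, hlt⟩ := exists_limit E
  obtain ⟨F, hF1, hF2⟩ := cl_all E hκ hΛ s hs
  have hδ0 : κ.ord ^ rk E s ≠ 0 := (Ordinal.opow_pos _ (zero_lt_one.trans hk)).ne'
  refine ⟨κ.ord ^ rk E s, ?_, ?_⟩
  · have h2 : ω ≤ κ.ord := by
      rw [← Cardinal.ord_aleph0]
      exact Cardinal.ord_le_ord.2 hκ
    refine (Ordinal.card_opow_le_of_omega0_le_left h2 _).trans ?_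
    exact max_le (by rw [Cardinal.card_ord]) (card_rk E hκ hΛ s)
  · intro hP
    obtain ⟨c, hc⟩ := hP fun i => F (Ordinal.ToType.mk.symm i).1
    by_cases hcR : c ∈ Rt E s
    · refine type_ne (b := 0) hδ0 (Ordinal.opow_pos _ (zero_lt_one.trans hk))
        (fun x => c ∉ F x) ⟨fun _ => 0, ?_, ?_⟩ hc
      · rintro x ⟨-, hx⟩
        exact absurd (hF1 x hcR) hx
      · rintro x ⟨-, hx⟩
        exact absurd (hF1 x hcR) hx
    · refine type_ne hδ0 ?_ (fun x => c ∉ F x) (hF2 c hcR) hc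
      refine (Ordinal.opow_lt_opow_iff_right hk).2 ?_
      rw [← Order.succ_eq_add_one]
      exact hl.succ_lt (hlt c hcR)

end Pool.Agent.CQ
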