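import Mathlib
import Pool.Agent.Lib_helper80.CQ.Rank
import Pool.Agent.Lib_helper80.CP.Base

/-!
# CQ (MP_931ca8_lc): norms of functions modulo finite sets
-/

set_option autoImplicit false
set_option linter.unusedSectionVars false
set_option linter.deprecated false

open Cardinal Ordinal Set

namespace Pool.Agent.CQ

open Pool.Agent.H68.OG

variable {Λ Λ' : Type}

/-- the norm of `h` on `M`, modulo finite sets, is at least `ρ` -/
inductive NGe (M : Set Λ) : Ordinal.{0} → (Λ → Ordinal.{0}) → Prop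
  | mk (ρ : Ordinal.{0}) (h : Λ → Ordinal.{0}) (g : Ordinal.{0} → Λ → Ordinal.{0})
      (h1 : ∀ σ, σ < ρ → NGe M σ (g σ))
      (h2 : ∀ σ, σ < ρ → {ν | ν ∈ M ∧ h ν ≤ g σ ν}.Finite) : NGe M ρ h

theorem NGe.out {M : Set Λ} {ρ : Ordinal.{0}} {h : Λ → Ordinal.{0}} (H : NGe M ρ h) :
    ∀ σ, σ < ρ → ∃ g, NGe M σ g ∧ {ν | ν ∈ M ∧ h ν ≤ g ν}.Finite := by
  cases H with
  | mk _ _ g h1 h2 => exact fun σ hσ => ⟨g σ, h1 σ hσ, h2 σ hσ⟩

theorem NGe.of {M : Set Λ} {ρ : Ordinal.{0}} {h : Λ → Ordinal.{0}}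
    (H : ∀ σ, σ < ρ → ∃ g, NGe M σ g ∧ {ν | ν ∈ M ∧ h ν ≤ g ν}.Finite) : NGe M ρ h := by
  classical
  choose g h1 h2 using H
  refine NGe.mk ρ h (fun σ => if hσ : σ < ρ then g σ hσ else h) ?_ ?_
  · intro σ hσ
    rw [dif_pos hσ]
    exact h1 σ hσ
  · intro σ hσ
    simp only [dif_pos hσ]
    exact h2 σ hσ

theorem nge_empty (ρ : Ordinal.{0}) (h : Λ → Ordinal.{0}) : NGe (∅ : Set Λ) ρ h := by
  induction ρ using WellFoundedLT.induction with
  | ind ρ IH =>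
    refine NGe.of fun σ hσ => ⟨h, IH σ hσ, ?_⟩
    refine Set.finite_empty.subset ?_
    rintro ν ⟨hν, -⟩
    exact hν

theorem NGe.comap {M : Set Λ} (i : Λ → Λ') (hi : Set.InjOn i M) {ρ : Ordinal.{0}}
    {h : Λ' → Ordinal.{0}} (H : NGe (Set.univ : Set Λ') ρ h) : NGe M ρ (h ∘ i) := by
  induction H with
  | mk ρ h g _ h2 ih =>
    refine NGe.mk ρ _ (fun σ => g σ ∘ i) ih ?_
    intro σ hσ
    refine Set.Finite.of_finite_image (f := i) ((h2 σ hσ).subset ?_) (hi.mono fun ν hν => hν.1)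
    rintro _ ⟨ν, ⟨-, hν⟩, rfl⟩
    exact ⟨trivial, hν⟩

theorem NGe.anti {M M' : Set Λ} (hM : M' ⊆ M) {ρ : Ordinal.{0}}
    {h : Λ → Ordinal.{0}} (H : NGe M ρ h) : NGe M' ρ h := by
  induction H with
  | mk ρ h g _ h2 ih =>
    refine NGe.mk ρ _ g ih fun σ hσ => (h2 σ hσ).subset ?_
    rintro ν ⟨hν, hν'⟩
    exact ⟨hM hν, hν'⟩

open Classical in
theorem NGe.union {M M' : Set Λ} {ρ : Ordinal.{0}} {h : Λ → Ordinal.{0}} (H : NGe M ρ h) :
    ∀ {h' : Λ → Ordinal.{0}}, NGe M' ρ h' → NGe (M ∪ M') ρ (fun ν => if ν ∈ M then h ν else h' ν)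
    := by
  induction H with
  | mk ρ h g _ h2 ih =>
    intro h' H'
    refine NGe.of fun σ hσ => ?_
    obtain ⟨g', h3, h4⟩ := H'.out σ hσ
    refine ⟨_, ih σ hσ h3, ((h2 σ hσ).union h4).subset ?_⟩
    rintro ν ⟨hν, hν'⟩
    by_cases hM : ν ∈ M
    · simp only [hM, if_true] at hν'
      exact Or.inl ⟨hM, hν'⟩
    · simp only [hM, if_false] at hν'
      rcases hν with hν | hν
      · exact absurd hν hM
      · exact Or.inr ⟨hν, hν'⟩

open Classical in
/-- finite-to-one changes do not decrease the norm -/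
theorem NGe.change {M S : Set Λ} {ρ : Ordinal.{0}} {h : Λ → Ordinal.{0}} (H : NGe M ρ h) :
    ∀ n : Λ → ℕ, (∀ k, {ν | ν ∈ S ∧ n ν ≤ k}.Finite) →
      NGe M ρ (fun ν => if ν ∈ S then ((n ν : ℕ) : Ordinal.{0}) else h ν) := by
  induction H with
  | mk ρ h g _ h2 ih =>
    intro n hn
    refine NGe.of fun σ hσ => ?_
    refine ⟨_, ih σ hσ (fun ν => n ν - 1) ?_, ((h2 σ hσ).union (hn 0)).subset ?_⟩
    · intro k
      refine (hn (k + 1)).subset ?_
      rintro ν ⟨hν, hν'⟩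
      exact ⟨hν, by omega⟩
    · rintro ν ⟨hν, hν'⟩
      by_cases hS : ν ∈ S
      · simp only [hS, if_true] at hν'
        have h3 : n ν ≤ n ν - 1 := by exact_mod_cast hν'
        exact Or.inr ⟨hS, by omega⟩
      · simp only [hS, if_false] at hν'
        exact Or.inl ⟨hν, hν'⟩

/-- functions `ω₁ → ω₁` of all norms below `ω₂` -/
theorem exists_norm (σ : Ordinal.{0}) (hσ : σ.card ≤ Cardinal.aleph 1) :
    ∃ h : Pool.Agent.CP.W1 → Ordinal.{0}, (∀ ν, h ν < (Cardinal.aleph 1).ord) ∧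
      NGe (Set.univ : Set Pool.Agent.CP.W1) σ h := by
  classical
  have hW : #Pool.Agent.CP.W1 = Cardinal.aleph 1 := by rw [Cardinal.mk_toType, Cardinal.card_ord]
  let v : Pool.Agent.CP.W1 → Ordinal.{0} := fun a => (Ordinal.ToType.mk.symm a).1
  have hv : ∀ a, v a < (Cardinal.aleph 1).ord := fun a => (Ordinal.ToType.mk.symm a).2
  have hvm : ∀ a b, a < b → v a < v b := fun a b hab =>
    (Ordinal.ToType.mk (o := (Cardinal.aleph 1).ord)).symm.lt_iff_lt.2 hab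
  have hvs : ∀ β, β < (Cardinal.aleph 1).ord → ∃ a, v a = β := fun β hβ =>
    ⟨Ordinal.ToType.mk ⟨β, hβ⟩, congrArg Subtype.val (OrderIso.symm_apply_apply
      (Ordinal.ToType.mk (o := (Cardinal.aleph 1).ord)) ⟨β, hβ⟩)⟩
  have hω : (ω : Ordinal.{0}) < (Cardinal.aleph 1).ord := by
    rw [← Cardinal.ord_aleph0, Cardinal.ord_lt_ord]
    exact Cardinal.aleph0_lt_aleph_one
  obtain ⟨w, hw⟩ := hvs ω hω
  suffices H : ∃ h : Pool.Agent.CP.W1 → Pool.Agent.CP.W1,
      NGe (Set.univ : Set Pool.Agent.CP.W1) σ (fun ν => v (h ν)) by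
    obtain ⟨h, hh⟩ := H
    exact ⟨_, fun ν => hv _, hh⟩
  induction σ using WellFoundedLT.induction with
  | ind σ IH =>
    have IH' : ∀ τ : σ.ToType, ∃ h : Pool.Agent.CP.W1 → Pool.Agent.CP.W1,
        NGe (Set.univ : Set Pool.Agent.CP.W1) (Ordinal.ToType.mk.symm τ).1 (fun ν => v (h ν)) :=
      fun τ => IH _ (Ordinal.ToType.mk.symm τ).2
        ((Ordinal.card_le_card (le_of_lt (Ordinal.ToType.mk.symm τ).2)).trans hσ)
    choose H hH using IH'
    have h1 : #σ.ToType ≤ #Pool.Agent.CP.W1 := by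
      rw [hW, Cardinal.mk_toType]
      exact hσ
    obtain ⟨ι⟩ := (Cardinal.le_def _ _).1 h1
    have hb : ∀ ν, ∃ b, w < b ∧ ∀ τ, ι τ < ν → H τ ν < b := by
      intro ν
      have hc : {τ | ι τ < ν}.Countable :=
        (Pool.Agent.CP.Iio_cnt ν).preimage_of_injOn ι.injective.injOn
      obtain ⟨b, hb⟩ := Pool.Agent.CP.bound ({w} ∪ (fun τ => H τ ν) '' {τ | ι τ < ν})
        ((Set.countable_singleton w).union (hc.image _))
      exact ⟨b, hb w (Or.inl rfl), fun τ hτ => hb _ (Or.inr ⟨τ, hτ, rfl⟩)⟩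
    choose h hh1 hh2 using hb
    refine ⟨h, NGe.of fun τ hτ => ?_⟩
    set t : σ.ToType := Ordinal.ToType.mk ⟨τ, hτ⟩ with ht
    have htτ : (Ordinal.ToType.mk.symm t).1 = τ := congrArg Subtype.val
      (OrderIso.symm_apply_apply (Ordinal.ToType.mk (o := σ)) ⟨τ, hτ⟩)
    have hSc : (Set.Iic (ι t)).Countable := by
      have : Set.Iic (ι t) ⊆ Set.Iio (ι t) ∪ {ι t} := by
        intro x hx
        rcases (show x ≤ ι t from hx).lt_or_eq with h3 | h3
        · exact Or.inl h3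
        · exact Or.inr h3
      exact ((Pool.Agent.CP.Iio_cnt _).union (Set.countable_singleton _)).mono this
    obtain ⟨n, hn⟩ := Set.countable_iff_exists_injOn.mp hSc
    have h5 := (hH t).change (S := Set.Iic (ι t)) n (by
      intro k
      refine Set.Finite.of_finite_image (f := n) ((Set.finite_Iic k).subset ?_)
        (hn.mono fun ν hν => hν.1)
      rintro _ ⟨ν, ⟨-, hν⟩, rfl⟩
      exact hν)
    rw [htτ] at h5
    refine ⟨_, h5, Set.finite_empty.subset ?_⟩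
    rintro ν ⟨-, hν⟩
    by_cases hS : ν ∈ Set.Iic (ι t)
    · simp only [hS, if_true] at hν
      have h6 : v w < v (h ν) := hvm _ _ (hh1 ν)
      rw [hw] at h6
      exact absurd (h6.trans_le hν) (not_lt.2 (Ordinal.natCast_lt_omega0 (n ν)).le)
    · simp only [hS, if_false] at hν
      have h6 : ι t < ν := not_le.1 hS
      exact absurd (hvm _ _ (hh2 ν t h6)) (not_lt.2 hν)

end Pool.Agent.CQ
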