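import Mathlib
import Pool.Agent.Lib_helper80.CQ.Norm

/-!
# CQ (MP_931ca8_lc): an interval without the omission property
-/

set_option autoImplicit false
set_option linter.unusedSectionVars false
set_option linter.deprecated false

open Cardinal Ordinal Set

namespace Pool.Agent.CQ

open Pool.Agent.H68.OG

/-- the ordinal of an element -/
noncomputable def val {κ : Cardinal.{0}} (a : κ.ord.ToType) : Ordinal.{0} :=
  (Ordinal.ToType.mk.symm a).1

theorem val_lt {κ : Cardinal.{0}} (a : κ.ord.ToType) : val a < κ.ord :=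
  (Ordinal.ToType.mk.symm a).2

theorem sup_lt {κ : Cardinal.{0}} (hκ : κ.IsRegular) {c : Ordinal.{0}} (hc : c < κ.ord)
    (f : Ordinal.{0} → Ordinal.{0}) (hf : ∀ i < c, f i < κ.ord) :
    ∃ b < κ.ord, ∀ i < c, f i ≤ b := by
  classical
  let S : Set κ.ord.ToType := {a | ∃ i, i < c ∧ f i = val a}
  have hS : #S < κ := by
    choose g hg1 hg2 using fun a : S => a.2
    refine lt_of_le_of_lt (Cardinal.mk_le_of_injective (f := fun a : S =>
      (Ordinal.ToType.mk ⟨g a, hg1 a⟩ : c.ToType)) ?_) ?_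
    · intro a b hab
      have h1 := congrArg Subtype.val ((Ordinal.ToType.mk (o := c)).injective hab)
      have h2 : g a = g b := h1
      have h3 : val a.1 = val b.1 := by rw [← hg2 a, ← hg2 b, h2]
      exact Subtype.ext ((Ordinal.ToType.mk (o := κ.ord)).symm.injective (Subtype.ext h3))
    · rw [Cardinal.mk_toType]
      exact Cardinal.lt_ord.1 hc
  obtain ⟨b, hb⟩ := exists_bound hκ S hS
  refine ⟨val b, val_lt b, fun i hi => ?_⟩
  have h1 : val (Ordinal.ToType.mk ⟨f i, hf i hi⟩ : κ.ord.ToType) = f i := congrArg Subtype.val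
    (OrderIso.symm_apply_apply (Ordinal.ToType.mk (o := κ.ord)) ⟨f i, hf i hi⟩)
  have h2 := hb (Ordinal.ToType.mk ⟨f i, hf i hi⟩) ⟨i, hi, h1.symm⟩
  have h3 : val (Ordinal.ToType.mk ⟨f i, hf i hi⟩ : κ.ord.ToType) < val b :=
    (Ordinal.ToType.mk (o := κ.ord)).symm.lt_iff_lt.2 h2
  rw [h1] at h3
  exact h3.le

theorem TLe.add {A : Set Ordinal.{0}} {b b' : Ordinal.{0}} (m : Ordinal.{0})
    (h : TLe {x | x ∈ A ∧ x < m} b) (h' : TLe {x | x ∈ A ∧ m ≤ x} b') : TLe A (b + b') := by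
  classical
  obtain ⟨φ, h1, h2⟩ := h
  obtain ⟨φ', h1', h2'⟩ := h'
  refine ⟨fun x => if x < m then φ x else b + φ' x, ?_, ?_⟩
  · intro x hx
    by_cases hm : x < m
    · simp only [hm, if_true]
      exact (h1 x ⟨hx, hm⟩).trans_le le_self_add
    · simp only [hm, if_false]
      exact (add_lt_add_iff_left b).2 (h1' x ⟨hx, not_lt.1 hm⟩)
  · intro x hx y hy hxy
    by_cases hm : y < m
    · simp only [hm, hxy.trans hm, if_true]
      exact h2 x ⟨hx, hxy.trans hm⟩ y ⟨hy, hm⟩ hxy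
    · by_cases hm' : x < m
      · simp only [hm, hm', if_true, if_false]
        exact (h1 x ⟨hx, hm'⟩).trans_le le_self_add
      · simp only [hm, hm', if_false]
        exact (add_lt_add_iff_left b).2 (h2' x ⟨hx, not_lt.1 hm'⟩ y ⟨hy, not_lt.1 hm⟩ hxy)

theorem TLe.empty {A : Set Ordinal.{0}} (b : Ordinal.{0}) (h : ∀ x, x ∉ A) : TLe A b :=
  ⟨fun _ => 0, fun x hx => absurd hx (h x), fun x hx => absurd hx (h x)⟩

theorem TLe.comp {A A' : Set Ordinal.{0}} {b : Ordinal.{0}} (p : Ordinal.{0} → Ordinal.{0})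
    (h : TLe A' b) (hp : ∀ x ∈ A, p x ∈ A') (hp2 : ∀ x ∈ A, ∀ y ∈ A, x < y → p x < p y) :
    TLe A b := by
  obtain ⟨φ, h1, h2⟩ := h
  exact ⟨fun x => φ (p x), fun x hx => h1 _ (hp x hx), fun x hx y hy hxy =>
    h2 _ (hp x hx) _ (hp y hy) (hp2 x hx y hy hxy)⟩

theorem grow {κ : Cardinal.{0}} (hκ : κ.IsRegular) {θ : Ordinal.{0}} (hθ : Order.IsSuccLimit θ)
    (Z : ∀ c < κ.ord, ∀ σ < κ.ord, ∃ h : κ.ord.ToType → Ordinal.{0}, (∀ ν, h ν < θ) ∧
      NGe {a | val a < c} σ h) :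
    ∀ ρ < κ.ord, ∀ (M : Set κ.ord.ToType) (g : κ.ord.ToType → Ordinal.{0}), NGe M ρ g →
      ∃ F : Ordinal.{0} → Finset κ.ord.ToType,
        (∀ ν ∈ M, TLe {x | x < κ.ord ^ ρ ∧ ν ∉ F x} (κ.ord ^ (g ν + 1))) ∧
        ∀ ν ∉ M, ∃ ξ < κ.ord, TLe {x | x < κ.ord ^ ρ ∧ ν ∉ F x} (κ.ord ^ (θ + 1) * ξ) := by
  classical
  have hk : 1 < κ.ord := one_lt_ord hκ
  have hk0 : 0 < κ.ord := zero_lt_one.trans hk
  have hkl : Order.IsSuccLimit κ.ord := Cardinal.isSuccLimit_ord hκ.1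
  have hpm : ∀ a b : Ordinal.{0}, a < κ.ord → b < κ.ord → a * b < κ.ord := by
    intro a b ha hb
    rw [Cardinal.lt_ord] at ha hb ⊢
    rw [Ordinal.card_mul]
    exact Cardinal.mul_lt_of_lt hκ.1 ha hb
  intro ρ
  induction ρ using WellFoundedLT.induction with
  | ind ρ IH =>
  intro hρ M g hg
  rcases Ordinal.zero_or_succ_or_isSuccLimit ρ with rfl | ⟨σ, rfl⟩ | hl
  · have h1 : ∀ b : Ordinal.{0}, 0 < b → ∀ ν : κ.ord.ToType,
        TLe {x | x < κ.ord ^ (0 : Ordinal.{0}) ∧ ν ∉ (∅ : Finset κ.ord.ToType)} b := by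
      intro b hb ν
      refine ⟨fun _ => 0, fun _ _ => hb, ?_⟩
      rintro x ⟨hx, -⟩ y ⟨hy, -⟩ hxy
      rw [Ordinal.opow_zero, Order.lt_one_iff] at hy
      rw [hy] at hxy
      exact absurd hxy (not_lt.2 zero_le)
    refine ⟨fun _ => ∅, fun ν _ => h1 _ (Ordinal.opow_pos _ hk0) ν, fun ν _ =>
      ⟨1, hk, h1 _ ?_ ν⟩⟩
    rw [mul_one]
    exact Ordinal.opow_pos _ hk0
  · -- successor
    have hσρ : σ < Order.succ σ := Order.lt_succ σ
    have hσ : σ < κ.ord := hσρ.trans hρ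
    obtain ⟨g1, hg1, hX⟩ := hg.out σ hσρ
    choose! f hf1 hf2 using fun (c : Ordinal.{0}) (hc : c < κ.ord) => Z c hc σ hσ
    have hG : ∀ c < κ.ord, NGe (M ∪ {a | val a < c}) σ
        (fun ν => if ν ∈ M then g1 ν else f c ν) := fun c hc => hg1.union (hf2 c hc)
    choose! F hF1 hF2 using fun (c : Ordinal.{0}) (hc : c < κ.ord) => IH σ hσρ hσ _ _ (hG c hc)
    have hb : κ.ord ^ σ ≠ 0 := (Ordinal.opow_pos σ hk0).ne'
    have hdiv : ∀ x < κ.ord ^ Order.succ σ, x / κ.ord ^ σ < κ.ord := by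
      intro x hx
      rw [Ordinal.opow_succ] at hx
      exact (Ordinal.lt_mul_iff_div_lt hb).1 hx
    have hdm : ∀ x y : Ordinal.{0}, x < y → x / κ.ord ^ σ ≤ y / κ.ord ^ σ := fun x y hxy =>
      (Ordinal.le_div hb).2 ((Ordinal.mul_div_le _ _).trans hxy.le)
    have hmod : ∀ x y : Ordinal.{0}, x < y → x / κ.ord ^ σ = y / κ.ord ^ σ →
        x % κ.ord ^ σ < y % κ.ord ^ σ := by
      intro x y hxy hd
      have h4 : κ.ord ^ σ * (x / κ.ord ^ σ) + x % κ.ord ^ σ <
          κ.ord ^ σ * (y / κ.ord ^ σ) + y % κ.ord ^ σ := by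
        rw [Ordinal.div_add_mod, Ordinal.div_add_mod]
        exact hxy
      rw [hd] at h4
      exact (add_lt_add_iff_left _).1 h4
    -- one block
    have hblock : ∀ (ν : κ.ord.ToType) (c b : Ordinal.{0}), c < κ.ord →
        TLe {x | x < κ.ord ^ σ ∧ ν ∉ F c x} b →
        TLe {x | (x < κ.ord ^ Order.succ σ ∧
          ν ∉ F (x / κ.ord ^ σ) (x % κ.ord ^ σ) ∪ hX.toFinset) ∧ x / κ.ord ^ σ = c} b := by
      intro ν c b _ h
      refine h.comp (fun x => x % κ.ord ^ σ) ?_ ?_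
      · rintro x ⟨⟨-, hx2⟩, hx3⟩
        refine ⟨Ordinal.mod_lt x hb, fun h5 => hx2 ?_⟩
        rw [hx3]
        exact Finset.mem_union_left _ h5
      · rintro x ⟨-, hx⟩ y ⟨-, hy⟩ hxy
        exact hmod x y hxy (hx.trans hy.symm)
    refine ⟨fun x => F (x / κ.ord ^ σ) (x % κ.ord ^ σ) ∪ hX.toFinset, ?_, ?_⟩
    · intro ν hν
      by_cases hνX : ν ∈ hX.toFinset
      · refine TLe.empty _ ?_
        rintro x ⟨-, hx⟩
        exact hx (Finset.mem_union_right _ hνX)
      · have hlt : g1 ν < g ν := by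
          rw [Set.Finite.mem_toFinset] at hνX
          by_contra hcon
          exact hνX ⟨hν, not_lt.1 hcon⟩
        have e : κ.ord ^ (g ν + 1) = κ.ord ^ g ν * κ.ord := by
          rw [← Order.succ_eq_add_one, Ordinal.opow_succ]
        rw [e]
        refine TLe.sum (fun x => x / κ.ord ^ σ) (fun x hx => hdiv x hx.1)
          (fun x _ y _ hxy => hdm x y hxy) ?_
        intro i
        by_cases hi : i < κ.ord
        · refine hblock ν i _ hi ?_
          have h5 := hF1 i hi ν (Or.inl hν)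
          simp only [hν, if_true] at h5
          refine h5.mono (Set.Subset.refl _) (Ordinal.opow_le_opow_right hk0 ?_)
          rw [← Order.succ_eq_add_one]
          exact Order.succ_le_of_lt hlt
        · refine TLe.empty _ ?_
          rintro x ⟨⟨hx1, -⟩, hx2⟩
          have h6 := hdiv x hx1
          have h7 : x / κ.ord ^ σ = i := hx2
          rw [h7] at h6
          exact hi h6
    · intro ν hν
      have hvν := val_lt ν
      have hsucc : val ν + 1 < κ.ord := hkl.add_one_lt hvν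
      -- the blocks up to `ν`
      have hξ : ∀ i, ∃ ξ, i < val ν + 1 → (ξ < κ.ord ∧
          TLe {x | x < κ.ord ^ σ ∧ ν ∉ F i x} (κ.ord ^ (θ + 1) * ξ)) := by
        intro i
        by_cases hi : i < val ν + 1
        · obtain ⟨ξ, h5, h6⟩ := hF2 i (hi.trans hsucc) ν (by
            rintro (h7 | h7)
            · exact hν h7
            · exact absurd (Order.lt_add_one_iff.1 hi) (not_le.2 h7))
          exact ⟨ξ, fun _ => ⟨h5, h6⟩⟩
        · exact ⟨0, fun h => absurd h hi⟩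
      choose ξ hξ using hξ
      obtain ⟨η, hη1, hη2⟩ := sup_lt hκ hsucc ξ fun i hi => (hξ i hi).1
      refine ⟨η * (val ν + 1) + 1, hkl.add_one_lt (hpm _ _ hη1 hsucc), ?_⟩
      rw [mul_add, mul_one, ← mul_assoc]
      refine TLe.add (κ.ord ^ σ * (val ν + 1)) ?_ ?_
      · refine TLe.sum (fun x => x / κ.ord ^ σ) ?_ (fun x _ y _ hxy => hdm x y hxy) ?_
        · rintro x ⟨-, hx⟩
          exact (Ordinal.lt_mul_iff_div_lt hb).1 hx
        · intro i
          by_cases hi : i < val ν + 1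
          · refine (hblock ν i _ (hi.trans hsucc) (hξ i hi).2).mono ?_
              (mul_le_mul_right (hη2 i hi) _)
            rintro x ⟨⟨hx1, -⟩, hx2⟩
            exact ⟨hx1, hx2⟩
          · refine TLe.empty _ ?_
            rintro x ⟨⟨-, hx1⟩, hx2⟩
            have h6 : x / κ.ord ^ σ < val ν + 1 := (Ordinal.lt_mul_iff_div_lt hb).1 hx1
            have h7 : x / κ.ord ^ σ = i := hx2
            rw [h7] at h6
            exact hi h6
      · have e : κ.ord ^ (θ + 1) = κ.ord ^ θ * κ.ord := by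
          rw [← Order.succ_eq_add_one, Ordinal.opow_succ]
        rw [e]
        refine TLe.sum (fun x => x / κ.ord ^ σ) (fun x hx => hdiv x hx.1.1)
          (fun x _ y _ hxy => hdm x y hxy) ?_
        intro i
        by_cases hi : i < κ.ord ∧ val ν < i
        · have h5 := hF1 i hi.1 ν (Or.inr hi.2)
          simp only [hν, if_false] at h5
          refine (hblock ν i _ hi.1 h5).mono ?_ (Ordinal.opow_le_opow_right hk0 ?_)
          · rintro x ⟨⟨hx1, -⟩, hx2⟩
            exact ⟨hx1, hx2⟩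
          · exact (hθ.add_one_lt (hf1 i hi.1 ν)).le
        · refine TLe.empty _ ?_
          rintro x ⟨⟨hx1, hx2⟩, hx3⟩
          have h7 : x / κ.ord ^ σ = i := hx3
          refine hi ⟨by rw [← h7]; exact hdiv x hx1.1, ?_⟩
          have h8 : val ν + 1 ≤ x / κ.ord ^ σ := (Ordinal.le_div hb).2 hx2
          rw [h7] at h8
          exact Order.add_one_le_iff.1 h8
  · -- limit
    choose! g1 hg1 hX using hg.out
    choose! F hF1 hF2 using fun (σ : Ordinal.{0}) (hσ : σ < ρ) =>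
      IH σ hσ (hσ.trans hρ) M (g1 σ) (hg1 σ hσ)
    have hne : ∀ x < κ.ord ^ ρ, {σ | σ < ρ ∧ x < κ.ord ^ σ}.Nonempty := by
      intro x hx
      obtain ⟨σ, hσ, hxσ⟩ := (Ordinal.lt_opow_of_isSuccLimit hk0.ne' hl).1 hx
      exact ⟨σ, hσ, hxσ⟩
    let j : Ordinal.{0} → Ordinal.{0} := fun x => sInf {σ | σ < ρ ∧ x < κ.ord ^ σ}
    have hj1 : ∀ x < κ.ord ^ ρ, j x < ρ ∧ x < κ.ord ^ j x := fun x hx => csInf_mem (hne x hx)
    have hj2 : ∀ x y, x < y → y < κ.ord ^ ρ → j x ≤ j y := by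
      intro x y hxy hy
      refine csInf_le' ?_
      exact ⟨(hj1 y hy).1, hxy.trans (hj1 y hy).2⟩
    let X : Ordinal.{0} → Finset κ.ord.ToType := fun σ =>
      if hσ : σ < ρ then (hX σ hσ).toFinset else ∅
    have hXm : ∀ σ (hσ : σ < ρ) ν, ν ∈ M → ν ∉ X σ → g1 σ ν < g ν := by
      intro σ hσ ν hν hνX
      simp only [X, hσ, dif_pos, Set.Finite.mem_toFinset] at hνX
      by_contra hcon
      exact hνX ⟨hν, not_lt.1 hcon⟩
    have hblock : ∀ (ν : κ.ord.ToType) (σ b : Ordinal.{0}),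
        TLe {x | x < κ.ord ^ σ ∧ ν ∉ F σ x} b →
        TLe {x | (x < κ.ord ^ ρ ∧ ν ∉ F (j x) x ∪ X (j x)) ∧ j x = σ} b := by
      intro ν σ b h
      refine h.mono ?_ le_rfl
      rintro x ⟨⟨hx1, hx2⟩, hx3⟩
      have h5 := (hj1 x hx1).2
      rw [hx3] at h5 hx2
      exact ⟨h5, fun h6 => hx2 (Finset.mem_union_left _ h6)⟩
    have hemp : ∀ (ν : κ.ord.ToType) (σ b : Ordinal.{0}), ¬ σ < ρ →
        TLe {x | (x < κ.ord ^ ρ ∧ ν ∉ F (j x) x ∪ X (j x)) ∧ j x = σ} b := by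
      intro ν σ b hσ
      refine TLe.empty _ ?_
      rintro x ⟨⟨hx1, -⟩, hx2⟩
      refine hσ ?_
      rw [← hx2]
      exact (hj1 x hx1).1
    refine ⟨fun x => F (j x) x ∪ X (j x), ?_, ?_⟩
    · intro ν hν
      have e : κ.ord ^ (g ν + 1) = κ.ord ^ g ν * κ.ord := by
        rw [← Order.succ_eq_add_one, Ordinal.opow_succ]
      rw [e]
      refine TLe.sum j (fun x hx => (hj1 x hx.1).1.trans hρ) (fun x _ y hy hxy =>
        hj2 x y hxy hy.1) ?_
      intro σ
      by_cases hσ : σ < ρ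
      · by_cases hνX : ν ∈ X σ
        · refine TLe.empty _ ?_
          rintro x ⟨⟨-, hx2⟩, hx3⟩
          have hx4 : ν ∉ F (j x) x ∪ X (j x) := hx2
          rw [hx3] at hx4
          exact hx4 (Finset.mem_union_right _ hνX)
        · refine (hblock ν σ _ (hF1 σ hσ ν hν)).mono (Set.Subset.refl _)
            (Ordinal.opow_le_opow_right hk0 ?_)
          rw [← Order.succ_eq_add_one]
          exact Order.succ_le_of_lt (hXm σ hσ ν hν hνX)
      · exact hemp ν σ _ hσ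
    · intro ν hν
      choose! ξ hξ1 hξ2 using fun (σ : Ordinal.{0}) (hσ : σ < ρ) => hF2 σ hσ ν hν
      obtain ⟨η, hη1, hη2⟩ := sup_lt hκ hρ ξ hξ1
      refine ⟨η * ρ, hpm _ _ hη1 hρ, ?_⟩
      rw [← mul_assoc]
      refine TLe.sum j (fun x hx => (hj1 x hx.1).1) (fun x _ y hy hxy => hj2 x y hxy hy.1) ?_
      intro σ
      by_cases hσ : σ < ρ
      · exact (hblock ν σ _ (hξ2 σ hσ)).mono (Set.Subset.refl _)
          (mul_le_mul_right (hη2 σ hσ) _)
      · exact hemp ν σ _ hσ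

/-- an interval without the omission property -/
theorem not_part_interval {κ : Cardinal.{0}} (hκ : κ.IsRegular) {θ : Ordinal.{0}}
    (hθ : Order.IsSuccLimit θ)
    (Z : ∀ c < κ.ord, ∀ σ < κ.ord, ∃ h : κ.ord.ToType → Ordinal.{0}, (∀ ν, h ν < θ) ∧
      NGe {a | val a < c} σ h) (δ : Ordinal.{0}) (h1 : κ.ord ^ (θ + 2) ≤ δ)
    (h2 : δ < κ.ord ^ κ.ord) : ¬ Part κ δ := by
  classical
  intro hP
  have hk : 1 < κ.ord := one_lt_ord hκ
  have hk0 : 0 < κ.ord := zero_lt_one.trans hk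
  have hkl : Order.IsSuccLimit κ.ord := Cardinal.isSuccLimit_ord hκ.1
  obtain ⟨ρ, hρ, hδρ⟩ := (Ordinal.lt_opow_of_isSuccLimit hk0.ne' hkl).1 h2
  obtain ⟨F, -, hF⟩ := grow hκ hθ Z ρ hρ ∅ (fun _ => 0) (nge_empty ρ _)
  obtain ⟨c, hc⟩ := hP fun i => F (Ordinal.ToType.mk.symm i).1
  obtain ⟨ξ, hξ1, hξ2⟩ := hF c (Set.notMem_empty c)
  have e : κ.ord ^ (θ + 2) = κ.ord ^ (θ + 1) * κ.ord := by
    have : (θ + 2 : Ordinal.{0}) = Order.succ (θ + 1) := by
      rw [Order.succ_eq_add_one, add_assoc, one_add_one_eq_two]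
    rw [this, Ordinal.opow_succ]
  have h3 : κ.ord ^ (θ + 1) * ξ < δ := by
    refine lt_of_lt_of_le ?_ h1
    rw [e]
    exact (mul_lt_mul_iff_right₀ (Ordinal.opow_pos _ hk0)).2 hξ1
  refine type_ne (ne_of_gt ((zero_le).trans_lt h3)) h3 (fun x => c ∉ F x) (hξ2.mono ?_ le_rfl) hc
  rintro x ⟨hx1, hx2⟩
  exact ⟨hx1.trans hδρ, hx2⟩

/-- the interval at `ω₂` -/
theorem not_part_w2 (δ : Ordinal.{0})
    (h1 : (Cardinal.aleph 2).ord ^ ((Cardinal.aleph 1).ord + 2) ≤ δ)
    (h2 : δ < (Cardinal.aleph 2).ord ^ (Cardinal.aleph 2).ord) : ¬ Part (Cardinal.aleph 2) δ := by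
  classical
  have e : (Cardinal.aleph 2 : Cardinal.{0}) = Order.succ (Cardinal.aleph 1) := by
    rw [Cardinal.succ_aleph]
    congr 1
    exact one_add_one_eq_two.symm
  have hκ : (Cardinal.aleph 2 : Cardinal.{0}).IsRegular := by
    rw [e]
    exact Cardinal.isRegular_succ (Cardinal.aleph0_le_aleph 1)
  refine not_part_interval hκ (Cardinal.isSuccLimit_ord (Cardinal.aleph0_le_aleph 1)) ?_ δ h1 h2
  intro c hc σ hσ
  have hlt : ∀ o : Ordinal.{0}, o < (Cardinal.aleph 2).ord → o.card ≤ Cardinal.aleph 1 := by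
    intro o ho
    rw [Cardinal.lt_ord, e] at ho
    exact Order.lt_succ_iff.1 ho
  obtain ⟨h, hh1, hh2⟩ := exists_norm σ (hlt σ hσ)
  have h3 : #{a : (Cardinal.aleph 2).ord.ToType | val a < c} ≤ #Pool.Agent.CP.W1 := by
    have h4 : #{a : (Cardinal.aleph 2).ord.ToType | val a < c} ≤ #c.ToType := by
      refine Cardinal.mk_le_of_injective (f := fun a : {a : (Cardinal.aleph 2).ord.ToType |
        val a < c} => (Ordinal.ToType.mk ⟨val a.1, a.2⟩ : c.ToType)) ?_
      intro a b hab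
      have h5 := congrArg Subtype.val ((Ordinal.ToType.mk (o := c)).injective hab)
      have h6 : val a.1 = val b.1 := h5
      exact Subtype.ext ((Ordinal.ToType.mk (o := (Cardinal.aleph 2).ord)).symm.injective
        (Subtype.ext h6))
    refine h4.trans ?_
    rw [Cardinal.mk_toType, Cardinal.mk_toType, Cardinal.card_ord]
    exact hlt c hc
  obtain ⟨ι⟩ := (Cardinal.le_def _ _).1 h3
  let i : (Cardinal.aleph 2).ord.ToType → Pool.Agent.CP.W1 := fun a =>
    if ha : val a < c then ι ⟨a, ha⟩ else Classical.arbitrary _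
  have hi : Set.InjOn i {a | val a < c} := by
    intro a ha b hb hab
    have ha' : val a < c := ha
    have hb' : val b < c := hb
    simp only [i, ha', hb', dif_pos] at hab
    exact congrArg Subtype.val (ι.injective hab)
  exact ⟨h ∘ i, fun ν => hh1 _, hh2.comap i hi⟩

end Pool.Agent.CQ
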