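import Mathlib
import Pool.Agent.Lib_helper80.CQ.Rank

/-!
# CQ (MP_931ca8_lc): the omission property holds for unboundedly many `δ < κ⁺`, and without
reverse-free sequences it also fails for unboundedly many
-/

set_option autoImplicit false
set_option linter.unusedSectionVars false
set_option linter.deprecated false

open Cardinal Ordinal Set

namespace Pool.Agent.CQ

open Pool.Agent.H68.OG

/-- The index set `ω₁`. -/
abbrev W : Type := (Cardinal.aleph 1 : Cardinal.{0}).ord.ToType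

theorem mk_W : #W = Cardinal.aleph 1 := by rw [Cardinal.mk_toType, Cardinal.card_ord]

/-- smaller at all but finitely many places -/
def Fin (T : Type) [LinearOrder T] (p q : W → T) : Prop := {c | ¬ p c < q c}.Finite

theorem fin_wf (T : Type) [LinearOrder T] [WellFoundedLT T] : IsWellFounded (W → T) (Fin T) := by
  refine ⟨wellFounded_iff_isEmpty_descending_chain.2 ⟨?_⟩⟩
  rintro ⟨f, hf⟩
  have h1 : (⋃ n, {c | ¬ f (n + 1) c < f n c}).Countable :=
    Set.countable_iUnion fun n => (hf n).countable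
  have h2 : ∃ c, c ∉ ⋃ n, {c | ¬ f (n + 1) c < f n c} := by
    by_contra hcon
    have hcon' : ∀ c, c ∈ ⋃ n, {c | ¬ f (n + 1) c < f n c} := fun c => by
      by_contra hc
      exact hcon ⟨c, hc⟩
    have h3 : (Set.univ : Set W).Countable := h1.mono fun c _ => hcon' c
    have h4 := h3.le_aleph0
    rw [Cardinal.mk_univ, mk_W] at h4
    exact absurd h4 (not_le.2 Cardinal.aleph0_lt_aleph_one)
  obtain ⟨c, hc⟩ := h2
  have h5 : ∀ n, f (n + 1) c < f n c := by
    intro n
    by_contra hcon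
    exact hc (Set.mem_iUnion.2 ⟨n, hcon⟩)
  exact (RelEmbedding.not_wellFounded (RelEmbedding.natGT (r := (· < ·))
    (fun n => f n c) h5)) wellFounded_lt

theorem rank_bound {κ : Cardinal.{0}} (hκ : κ ^ (Cardinal.aleph 1 : Cardinal.{0}) ≤ κ)
    (hκ0 : ℵ₀ ≤ κ) (γ : Ordinal.{0}) (hγ : γ.card ≤ κ) :
    ∃ δ : Ordinal.{0}, δ.card ≤ κ ∧ γ < δ ∧ ∀ F : Ordinal.{0} → Finset W,
      ∃ c, ¬ TLe {x | x < δ ∧ c ∉ F x} γ := by
  classical
  let T : Type := (Order.succ γ).ToType
  have hwf : IsWellFounded (W → T) (Fin T) := fin_wf T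
  let θ : Ordinal.{0} := ⨆ p : W → T, Order.succ (IsWellFounded.rank (Fin T) p)
  have hT : #T ≤ κ := by
    rw [Cardinal.mk_toType, Order.succ_eq_add_one, Ordinal.card_add, Ordinal.card_one]
    exact Cardinal.add_le_of_le hκ0 hγ (Cardinal.one_le_aleph0.trans hκ0)
  have hQ : #(W → T) ≤ κ := by
    rw [← Cardinal.power_def, mk_W]
    exact (Cardinal.power_le_power_right hT).trans hκ
  have hθ : θ.card ≤ κ := by
    have h1 : ∀ i : θ.ToType, ∃ p : W → T,
        IsWellFounded.rank (Fin T) p = (Ordinal.ToType.mk.symm i).1 := by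
      intro i
      have h2 : (Ordinal.ToType.mk.symm i).1 < θ := (Ordinal.ToType.mk.symm i).2
      obtain ⟨p, hp⟩ := (Ordinal.lt_iSup_iff).1 h2
      exact IsWellFounded.mem_range_rank_of_le (Order.lt_succ_iff.1 hp)
    choose g hg using h1
    have hinj : Function.Injective g := by
      intro a b hab
      have h2 : (Ordinal.ToType.mk.symm a).1 = (Ordinal.ToType.mk.symm b).1 := by
        rw [← hg a, ← hg b, hab]
      exact Ordinal.ToType.mk.symm.injective (Subtype.ext h2)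
    have h2 := Cardinal.mk_le_of_injective hinj
    rw [Cardinal.mk_toType] at h2
    exact h2.trans hQ
  refine ⟨Order.succ (max θ γ), ?_, Order.lt_succ_of_le (le_max_right _ _), ?_⟩
  · rw [Order.succ_eq_add_one, Ordinal.card_add, Ordinal.card_one]
    refine Cardinal.add_le_of_le hκ0 ?_ (Cardinal.one_le_aleph0.trans hκ0)
    rcases le_total θ γ with h | h
    · rw [max_eq_right h]; exact hγ
    · rw [max_eq_left h]; exact hθ
  intro F
  by_contra hcon
  push Not at hcon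
  choose φ hφ1 hφ2 using hcon
  have h0 : (0 : Ordinal.{0}) < Order.succ γ := Order.lt_succ_of_le zero_le
  let p : Ordinal.{0} → W → T := fun i c =>
    if h : φ c i < γ then Ordinal.ToType.mk ⟨φ c i, h.trans (Order.lt_succ γ)⟩
    else Ordinal.ToType.mk ⟨0, h0⟩
  have hp : ∀ i j, i < j → j < Order.succ (max θ γ) → Fin T (p i) (p j) := by
    intro i j hij hj
    refine ((F i ∪ F j).finite_toSet).subset ?_
    intro c hc
    by_contra hcF
    refine hc ?_
    have hci : c ∉ F i := fun h => hcF (Finset.mem_coe.2 (Finset.mem_union_left _ h))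
    have hcj : c ∉ F j := fun h => hcF (Finset.mem_coe.2 (Finset.mem_union_right _ h))
    have h1 := hφ1 c i ⟨hij.trans hj, hci⟩
    have h2 := hφ1 c j ⟨hj, hcj⟩
    have h3 := hφ2 c i ⟨hij.trans hj, hci⟩ j ⟨hj, hcj⟩ hij
    simp only [p, h1, h2, dif_pos]
    rw [OrderIso.lt_iff_lt]
    exact h3
  have hrank : ∀ i, i < Order.succ (max θ γ) → i ≤ IsWellFounded.rank (Fin T) (p i) := by
    intro i
    induction i using WellFoundedLT.induction with
    | ind i IH =>
      intro hi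
      refine le_of_forall_lt fun j hj => ?_
      exact (IH j hj (hj.trans hi)).trans_lt (IsWellFounded.rank_lt_of_rel (hp j i hj hi))
  have h5 := hrank θ (Order.lt_succ_of_le (le_max_left _ _))
  have h6 : Order.succ (IsWellFounded.rank (Fin T) (p θ)) ≤ θ :=
    Ordinal.le_iSup (fun p : W → T => Order.succ (IsWellFounded.rank (Fin T) p)) (p θ)
  exact absurd (Order.lt_succ (IsWellFounded.rank (Fin T) (p θ))) (not_lt.2 (h6.trans h5))

/-- `TLe` from the type -/
theorem tle_of_type {δ b : Ordinal.{0}} (P : Ordinal.{0} → Prop)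
    (h : Ordinal.type (fun x y : {i : δ.ToType | P (Ordinal.ToType.mk.symm i).1} => x < y) ≤ b) :
    TLe {x | x < δ ∧ P x} b := by
  classical
  have hmem : ∀ x (hx : x < δ ∧ P x), (Ordinal.ToType.mk ⟨x, hx.1⟩ : δ.ToType) ∈
      {i : δ.ToType | P (Ordinal.ToType.mk.symm i).1} := by
    intro x hx
    show P (Ordinal.ToType.mk.symm (Ordinal.ToType.mk ⟨x, hx.1⟩ : δ.ToType)).1
    rw [OrderIso.symm_apply_apply]
    exact hx.2
  refine ⟨fun x => if hx : x < δ ∧ P x then
    Ordinal.typein (fun x y : {i : δ.ToType | P (Ordinal.ToType.mk.symm i).1} => x < y)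
      ⟨Ordinal.ToType.mk ⟨x, hx.1⟩, hmem x hx⟩ else 0, ?_, ?_⟩
  · intro x hx
    have hx' : x < δ ∧ P x := hx
    simp only [hx', and_self, dif_pos]
    exact (Ordinal.typein_lt_type _ _).trans_le h
  · intro x hx y hy hxy
    have hx' : x < δ ∧ P x := hx
    have hy' : y < δ ∧ P y := hy
    simp only [hx', hy', and_self, dif_pos]
    rw [Ordinal.typein_lt_typein]
    show (Ordinal.ToType.mk ⟨x, hx'.1⟩ : δ.ToType) < Ordinal.ToType.mk ⟨y, hy'.1⟩
    rw [OrderIso.lt_iff_lt]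
    exact hxy

/-- the omission property for unboundedly many ordinals -/
theorem unb_part {κ : Cardinal.{0}} (hκ : κ ^ (Cardinal.aleph 1 : Cardinal.{0}) ≤ κ)
    (hκ0 : Cardinal.aleph 1 ≤ κ) (γ : Ordinal.{0}) (hγ : γ.card ≤ κ) :
    ∃ δ : Ordinal.{0}, γ ≤ δ ∧ δ.card ≤ κ ∧ Part κ δ := by
  classical
  have hκ00 : ℵ₀ ≤ κ := (Cardinal.aleph0_le_aleph 1).trans hκ0
  choose! nx hnx1 hnx2 hnx3 using fun o (ho : Ordinal.card o ≤ κ) => rank_bound hκ hκ00 o ho
  let d : ℕ → Ordinal.{0} := fun n => nx^[n] γ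
  have hd0 : d 0 = γ := rfl
  have hds : ∀ n, d (n + 1) = nx (d n) := fun n => Function.iterate_succ_apply' nx n γ
  have hdc : ∀ n, (d n).card ≤ κ := by
    intro n
    induction n with
    | zero => exact hγ
    | succ n ih => rw [hds]; exact hnx1 _ ih
  have hle : ∀ n, d n ≤ ⨆ n, d n := fun n => Ordinal.le_iSup d n
  obtain ⟨δ, hδ⟩ : ∃ δ, δ = ⨆ n, d n := ⟨_, rfl⟩
  rw [← hδ] at hle
  refine ⟨δ, ?_, ?_, ?_⟩
  · exact hd0 ▸ hle 0
  · rw [hδ]
    refine Ordinal.card_iSup_le ?_ hdc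
    rw [Cardinal.mk_nat]
    exact hκ00
  intro F
  by_contra hcon
  push Not at hcon
  have h1 : ∀ c, ∃ n, Ordinal.type (fun x y : {i : δ.ToType | c ∉ F i} => x < y) ≤ d n := by
    intro c
    have h2 : Ordinal.type (fun x y : {i : δ.ToType | c ∉ F i} => x < y) < δ :=
      lt_of_le_of_ne (typ_le δ _) (hcon c)
    conv_rhs at h2 => rw [hδ]
    obtain ⟨n, hn⟩ := (Ordinal.lt_iSup_iff).1 h2
    exact ⟨n, hn.le⟩
  have h3 : #W ≤ #κ.ord.ToType := by
    rw [mk_W, Cardinal.mk_toType, Cardinal.card_ord]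
    exact hκ0
  obtain ⟨ι⟩ := (Cardinal.le_def _ _).1 h3
  choose m hm using fun a : W => h1 (ι a)
  have h4 : ∃ n, ¬ (m ⁻¹' {n}).Countable := by
    by_contra hc
    push Not at hc
    have h5 : (Set.univ : Set W).Countable := by
      refine (Set.countable_iUnion fun n => hc n).mono ?_
      intro a _
      exact Set.mem_iUnion.2 ⟨m a, rfl⟩
    have h6 := h5.le_aleph0
    rw [Cardinal.mk_univ, mk_W] at h6
    exact absurd h6 (not_le.2 Cardinal.aleph0_lt_aleph_one)
  obtain ⟨n, hn⟩ := h4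
  have h5 : #W ≤ #(m ⁻¹' {n} : Set W) := by
    rw [mk_W, ← Cardinal.succ_aleph0]
    refine Order.succ_le_of_lt (not_le.1 fun h => hn ?_)
    exact Cardinal.mk_le_aleph0_iff.1 h
  obtain ⟨j⟩ := (Cardinal.le_def _ _).1 h5
  have hinj : Function.Injective fun a : W => ι (j a).1 := by
    intro a b hab
    exact j.injective (Subtype.ext (ι.injective hab))
  let F' : Ordinal.{0} → Finset W := fun x =>
    if hx : x < δ then (F (Ordinal.ToType.mk ⟨x, hx⟩)).preimage (fun a : W => ι (j a).1)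
      hinj.injOn else ∅
  have h6 := hnx3 (d n) (hdc n) F'
  rw [← hds] at h6
  obtain ⟨c, hc⟩ := h6
  refine hc ?_
  let P : Ordinal.{0} → Prop := fun x => ∀ hx : x < δ, ι (j c).1 ∉ F (Ordinal.ToType.mk ⟨x, hx⟩)
  have h7 : {i : δ.ToType | P (Ordinal.ToType.mk.symm i).1} = {i : δ.ToType | ι (j c).1 ∉ F i} := by
    ext i
    show (∀ hx : (Ordinal.ToType.mk.symm i).1 < δ, ι (j c).1 ∉
      F (Ordinal.ToType.mk ⟨(Ordinal.ToType.mk.symm i).1, hx⟩)) ↔ ι (j c).1 ∉ F i
    have h8 : ∀ hx : (Ordinal.ToType.mk.symm i).1 < δ,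
        (Ordinal.ToType.mk ⟨(Ordinal.ToType.mk.symm i).1, hx⟩ : δ.ToType) = i := fun hx =>
      OrderIso.apply_symm_apply (Ordinal.ToType.mk (o := δ)) i
    constructor
    · intro h
      have h9 := h (Ordinal.ToType.mk.symm i).2
      have h10 := h8 (Ordinal.ToType.mk.symm i).2
      exact fun hm => h9 (h10.symm ▸ hm)
    · intro h hx hm
      exact h (h8 hx ▸ hm)
  have h8 : m (j c).1 = n := (j c).2
  have h9 := hm (j c).1
  rw [h8] at h9
  have h10 : TLe {x | x < δ ∧ P x} (d n) := by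
    refine tle_of_type P ?_
    rw [h7]
    exact h9
  refine h10.mono ?_ le_rfl
  rintro x ⟨hx1, hx2⟩
  have hxδ : x < δ := hx1.trans_le (hle _)
  refine ⟨hxδ, fun hx hmem => hx2 ?_⟩
  simp only [F', hx, dif_pos]
  rw [Finset.mem_preimage]
  exact hmem

theorem part_of_mul {κ : Cardinal.{0}} {a δ : Ordinal.{0}} (ha : a ≠ 0)
    (h : Part κ (a * δ)) : Part κ δ := by
  classical
  intro F
  rcases eq_or_ne δ 0 with rfl | hδ
  · rw [mul_zero] at h
    exact h F
  let F₀ : Ordinal.{0} → Finset κ.ord.ToType := fun x =>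
    if hx : x < δ then F (Ordinal.ToType.mk ⟨x, hx⟩) else ∅
  obtain ⟨c, hc⟩ := h fun i => F₀ ((Ordinal.ToType.mk.symm i).1 / a)
  refine ⟨c, ?_⟩
  by_contra hcon
  have hlt : Ordinal.type (fun x y : {i : δ.ToType | c ∉ F i} => x < y) < δ :=
    lt_of_le_of_ne (typ_le δ _) hcon
  have h7 : {i : δ.ToType | c ∉ F₀ (Ordinal.ToType.mk.symm i).1} = {i : δ.ToType | c ∉ F i} := by
    ext i
    have h8 : F₀ (Ordinal.ToType.mk.symm i).1 = F i := by
      have hx : (Ordinal.ToType.mk.symm i).1 < δ := (Ordinal.ToType.mk.symm i).2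
      simp only [F₀, hx, dif_pos]
      exact congrArg F (OrderIso.apply_symm_apply (Ordinal.ToType.mk (o := δ)) i)
    show c ∉ F₀ (Ordinal.ToType.mk.symm i).1 ↔ c ∉ F i
    rw [h8]
  obtain ⟨φ, hφ1, hφ2⟩ := tle_of_type (δ := δ) (fun x => c ∉ F₀ x) (b := Ordinal.type
    (fun x y : {i : δ.ToType | c ∉ F i} => x < y)) (by rw [h7])
  refine type_ne (δ := a * δ) (b := a * Ordinal.type
    (fun x y : {i : δ.ToType | c ∉ F i} => x < y)) (mul_ne_zero ha hδ) ?_
    (fun x => c ∉ F₀ (x / a)) ?_ hc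
  · exact (mul_lt_mul_iff_right₀ (pos_iff_ne_zero.2 ha)).2 hlt
  · have hdiv : ∀ x, x < a * δ → x / a < δ := fun x hx => (Ordinal.lt_mul_iff_div_lt ha).1 hx
    have hmono : ∀ x y : Ordinal.{0}, x < y → x / a ≤ y / a := by
      intro x y hxy
      refine (Ordinal.mul_le_iff_le_div ha).1 ?_
      exact (Ordinal.mul_div_le x a).trans hxy.le
    refine TLe.sum (fun x => φ (x / a)) ?_ ?_ ?_
    · rintro x ⟨hx1, hx2⟩
      exact hφ1 _ ⟨hdiv x hx1, hx2⟩
    · rintro x ⟨hx1, hx2⟩ y ⟨hy1, hy2⟩ hxy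
      rcases (hmono x y hxy).eq_or_lt with h | h
      · rw [h]
      · exact (hφ2 _ ⟨hdiv x hx1, hx2⟩ _ ⟨hdiv y hy1, hy2⟩ h).le
    · intro i
      refine ⟨fun x => x % a, fun x _ => Ordinal.mod_lt x ha, ?_⟩
      rintro x ⟨⟨hx1, hx2⟩, hx3⟩ y ⟨⟨hy1, hy2⟩, hy3⟩ hxy
      have h9 : x / a = y / a := by
        rcases (hmono x y hxy).eq_or_lt with h | h
        · exact h
        · have h10 := hφ2 _ ⟨hdiv x hx1, hx2⟩ _ ⟨hdiv y hy1, hy2⟩ h
          have hx3' : φ (x / a) = i := hx3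
          have hy3' : φ (y / a) = i := hy3
          rw [hx3', hy3'] at h10
          exact absurd h10 (lt_irrefl _)
      rw [← Ordinal.div_add_mod x a, ← Ordinal.div_add_mod y a, h9] at hxy
      exact (add_lt_add_iff_left _).1 hxy

theorem unb_not_part {κ : Cardinal.{0}} (hκ : ℵ₀ ≤ κ) (h : ¬ RF κ.ord.ToType)
    (γ : Ordinal.{0}) (hγ : γ.card ≤ κ) :
    ∃ δ : Ordinal.{0}, γ ≤ δ ∧ δ.card ≤ κ ∧ ¬ Part κ δ := by
  obtain ⟨δ₀, h1, h2⟩ := not_part_of_not_rf hκ h
  have hδ0 : δ₀ ≠ 0 := by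
    rintro rfl
    refine h2 fun F => ?_
    have hN : Nonempty κ.ord.ToType := by
      rw [← Cardinal.mk_ne_zero_iff, Cardinal.mk_toType, Cardinal.card_ord]
      exact (aleph0_pos.trans_le hκ).ne'
    exact ⟨hN.some, le_antisymm (typ_le _ _) zero_le⟩
  refine ⟨Order.succ γ * δ₀, ?_, ?_, fun h3 => h2 (part_of_mul ?_ h3)⟩
  · calc γ ≤ Order.succ γ := Order.le_succ γ
      _ = Order.succ γ * 1 := (mul_one _).symm
      _ ≤ Order.succ γ * δ₀ := mul_le_mul_right (Order.one_le_iff_pos.2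
          (pos_iff_ne_zero.2 hδ0)) _
  · rw [Ordinal.card_mul]
    refine Cardinal.mul_le_of_le hκ ?_ h1
    rw [Order.succ_eq_add_one, Ordinal.card_add, Ordinal.card_one]
    exact Cardinal.add_le_of_le hκ hγ (Cardinal.one_le_aleph0.trans hκ)
  · exact (Order.lt_succ_of_le zero_le).ne'

end Pool.Agent.CQ
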